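import Pool.Agent.Lib.MP_72e2e6_nt.P3.A.Spec

/-!
# MP_72e2e6_nt, theorem T3p, part A: the actions
-/

namespace Pool.Agent.MP72P

open Finset

private theorem actLcPi {G B : Type} [TopologicalSpace G] {m : ℕ} {f : Fin m → G → B}
    (h : ∀ i, IsLocallyConstant (f i)) : IsLocallyConstant fun g i => f i g := by
  rw [IsLocallyConstant.iff_eventually_eq]
  intro g
  have h1 : ∀ i, ∀ᶠ g' in nhds g, f i g' = f i g := fun i =>
    (IsLocallyConstant.iff_eventually_eq _).1 (h i) g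
  have h2 := Filter.eventually_all.2 h1
  filter_upwards [h2] with g' hg'
  funext i
  exact hg' i

private theorem actStep {p : ℕ} (hp : p.Prime) {Λ : Type} [CommRing Λ] {π : Λ}
    (hd : ∃ y, (p : Λ) = π * y) (a y : Λ) (j : ℕ) (hj : 1 ≤ j) :
    ∃ z, (a + π ^ j * y) ^ p = a ^ p + π ^ (j + 1) * z := by
  obtain ⟨u, hu⟩ := hd
  have h2 := hp.two_le
  have hle : j + 1 ≤ j * p := by nlinarith
  obtain ⟨r, hr⟩ := Nat.exists_eq_add_of_le hle
  rw [add_pow_prime_eq hp]
  refine ⟨π ^ r * y ^ p + u * a * y * ∑ k ∈ Ioo 0 p, a ^ (k - 1) * (π ^ j * y) ^ (p - k - 1) *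
    ↑(p.choose k / p), ?_⟩
  have e1 : (π ^ j * y) ^ p = π ^ (j + 1) * (π ^ r * y ^ p) := by
    rw [mul_pow, ← pow_mul, hr, pow_add]
    ring
  rw [e1, hu]
  ring

private theorem actPow {p : ℕ} (hp : p.Prime) {Λ : Type} [CommRing Λ] {π : Λ}
    (hd : ∃ y, (p : Λ) = π * y) (a y : Λ) (k : ℕ) :
    ∃ z, (a + π * y) ^ p ^ k = a ^ p ^ k + π ^ (k + 1) * z := by
  induction k with
  | zero => exact ⟨y, by simp⟩
  | succ k ih =>
    obtain ⟨z, hz⟩ := ih
    obtain ⟨w, hw⟩ := actStep hp hd (a ^ p ^ k) z (k + 1) (Nat.le_add_left 1 k)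
    refine ⟨w, ?_⟩
    rw [pow_succ p k, pow_mul, hz, hw, ← pow_mul]

private theorem actPsi {p n : ℕ} (hp : p.Prime) {Λ : Type} [CommRing Λ] {π : Λ} (hL : LR p n π)
    {G : Type} [Group G] [TopologicalSpace G] {ω : G → ZMod p} {ψ : G → Λ} (hψ : Chr π ω ψ)
    (g : G) (k : ℕ) (hk : n ≤ k) : ψ (g ^ p ^ k) = (((ω g).val ^ p ^ k : ℕ) : Λ) := by
  have h1 : ∀ m : ℕ, ψ (g ^ m) = ψ g ^ m := by
    intro m
    induction m with
    | zero => rw [pow_zero, pow_zero, hψ.one]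
    | succ m ih => rw [pow_succ, hψ.mul, ih, pow_succ]
  obtain ⟨y, hy⟩ := hψ.red g
  obtain ⟨z, hz⟩ := actPow hp hL.pdv (((ω g).val : ℕ) : Λ) y k
  have h2 : π ^ (k + 1) = 0 := by
    obtain ⟨r, hr⟩ := Nat.exists_eq_add_of_le (show n ≤ k + 1 by omega)
    rw [hr, pow_add, hL.nil, zero_mul]
  rw [h1, hy, hz, h2, zero_mul, add_zero]
  push_cast
  rfl

private theorem actHom {p : ℕ} {G : Type} [Group G] [TopologicalSpace G]
    {δ : G → ZMod p} (hδ : HomP p δ) : δ 1 = 0 ∧ ∀ (g : G) (m : ℕ), δ (g ^ m) = m * δ g := by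
  have h1 : δ 1 = 0 := by
    have := hδ.add 1 1
    rw [mul_one] at this
    exact left_eq_add.1 this
  refine ⟨h1, fun g m => ?_⟩
  induction m with
  | zero => rw [pow_zero, h1, Nat.cast_zero, zero_mul]
  | succ m ih =>
    rw [pow_succ, hδ.add, ih, Nat.cast_succ]
    ring

private theorem actGen {p : ℕ} {G Λ : Type} [CommRing Λ] [Group G] [TopologicalSpace G]
    {ω : G → ZMod p} {ψ : G → Λ} (hl : IsLocallyConstant ψ) (h1 : ψ 1 = 1)
    (hm : ∀ a b, ψ (a * b) = ψ a * ψ b) (n : ℕ)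
    (hu : ∀ g k, n ≤ k → ψ (g ^ p ^ k) = (((ω g).val ^ p ^ k : ℕ) : Λ))
    (m : ℕ) (δ : Fin m → G → ZMod p) (hδ : ∀ i, HomP p (δ i)) :
    ActP p ω (fun g (f : (Fin m → ZMod p) → Λ) τ => ψ g * f (fun i => τ i - δ i g)) := by
  constructor
  · intro g x y
    funext τ
    simp only [Pi.add_apply]
    rw [mul_add]
  · intro x
    funext τ
    have : (fun i => τ i - δ i 1) = τ := by
      funext i
      rw [(actHom (hδ i)).1, sub_zero]
    simp only [this, h1, one_mul]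
  · intro g h x
    funext τ
    have : (fun i => τ i - δ i (g * h)) = fun i => τ i - δ i g - δ i h := by
      funext i
      rw [(hδ i).add]
      ring
    simp only [this, hm, mul_assoc]
  · intro x
    exact hl.comp₂ (actLcPi fun i => (hδ i).loc)
      (fun a (b : Fin m → ZMod p) (τ : Fin m → ZMod p) => a * x (fun i => τ i - b i))
  · intro g
    refine ⟨n + 1, fun x => ?_⟩
    funext τ
    have : (fun i => τ i - δ i (g ^ p ^ (n + 1))) = τ := by
      funext i
      rw [(actHom (hδ i)).2, Nat.cast_pow, ZMod.natCast_self, pow_succ, mul_zero, zero_mul,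
        sub_zero]
    simp only [this, hu g (n + 1) (Nat.le_succ n), Pi.smul_apply, nsmul_eq_mul]

private theorem actTw {p : ℕ} {Λ : Type} [CommRing Λ] {π : Λ}
    (hz : ∀ c : ZMod p, ∃ y, 1 - zt π c = ((c.val : ℕ) : Λ) * π + π ^ 2 * y)
    (z0 : zt π (0 : ZMod p) = 1) (zadd : ∀ a b : ZMod p, zt π (a + b) = zt π a * zt π b)
    {G : Type} [Group G] [TopologicalSpace G] {ω : G → ZMod p} {ψ : G → Λ} (hψ : Chr π ω ψ)
    {h : G → ZMod p} (hs : HomP p h) : Chr π ω (tw π ψ h) := by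
  constructor
  · exact hψ.loc.comp₂ hs.loc fun a b => a * zt π b
  · unfold tw
    rw [(actHom hs).1, z0, hψ.one, mul_one]
  · intro a b
    unfold tw
    rw [hs.add, zadd, hψ.mul]
    ring
  · intro a
    obtain ⟨y, hy⟩ := hψ.red a
    obtain ⟨w, hw⟩ := hz (h a)
    unfold tw
    have e : zt π (h a) = 1 - ((((h a).val : ℕ) : Λ) * π + π ^ 2 * w) := by
      rw [← hw]
      ring
    refine ⟨y - ((((ω a).val : ℕ) : Λ) + π * y) * ((((h a).val : ℕ) : Λ) + π * w), ?_⟩
    rw [hy, e]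
    ring

theorem tAct (h1 : S_Lrb) : S_Act := by
  intro p hpf n Λ _ π hL G _ _ _ ω hω ψ hψ
  have hp : p.Prime := hpf.out
  obtain ⟨-, -, ⟨z0, zadd⟩, -, -, -, -, -, hz, -⟩ := h1 p n Λ π hL
  refine ⟨?_, fun m δ hδ => ⟨?_, ?_, ?_⟩⟩
  · constructor
    · intro g x y
      exact mul_add _ _ _
    · intro x
      simp only [hψ.one, one_mul]
    · intro g h x
      simp only [hψ.mul, mul_assoc]
    · intro x
      exact hψ.loc.comp fun a => a * x
    · intro g
      refine ⟨n, fun x => ?_⟩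
      simp only [actPsi hp hL hψ g n le_rfl, nsmul_eq_mul]
  · exact actGen hψ.loc hψ.one hψ.mul n (fun g k hk => actPsi hp hL hψ g k hk) m δ hδ
  · refine actGen hω.loc hω.one hω.mul 0 (fun g k _ => ?_) m δ hδ
    have h1 : ∀ m : ℕ, ω (g ^ m) = ω g ^ m := by
      intro m
      induction m with
      | zero => rw [pow_zero, pow_zero, hω.one]
      | succ m ih => rw [pow_succ, hω.mul, ih, pow_succ]
    rw [h1, Nat.cast_pow, ZMod.natCast_zmod_val]
  · have hs : HomP p fun g => ∑ i, δ i g := by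
      refine ⟨(actLcPi fun i => (hδ i).loc).comp fun b : Fin m → ZMod p => ∑ i, b i,
        fun a b => ?_⟩
      rw [← Finset.sum_add_distrib]
      exact Finset.sum_congr rfl fun i _ => (hδ i).add a b
    exact actTw hz z0 zadd hψ hs

end Pool.Agent.MP72P
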