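import Mathlib

/-!
# MP_72e2e6_nt, theorem T3p, part A (abstract part): definitions

`p` is a prime, `G` a compact (profinite) group, `S = Option ι` a finite set (`none` is the base
place), `ω : G → ZMod p` a character with values different from `0`, `W w` subgroups of `G`, `e j`,
`j ∈ J`, elements of `G`, `pl j ∈ ι` the place of `e j`. All functions on groups are locally
constant. `Λ` is a ring of the type `Z[ζ] / π ^ n`, `π = 1 - ζ`.
-/

namespace Pool.Agent.MP72P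

open Finset

/-- Locally constant homomorphisms to `ZMod p`. -/
structure HomP (p : ℕ) {G : Type*} [Group G] [TopologicalSpace G] (h : G → ZMod p) : Prop where
  loc : IsLocallyConstant h
  add : ∀ a b, h (a * b) = h a + h b

/-- Locally constant characters with values in `ZMod p`, different from `0`. -/
structure ChO (p : ℕ) {G : Type*} [Group G] [TopologicalSpace G] (ω : G → ZMod p) : Prop where
  loc : IsLocallyConstant ω
  one : ω 1 = 1
  mul : ∀ a b, ω (a * b) = ω a * ω b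
  ne : ∀ a, ω a ≠ 0

/-- Locally constant crossed homomorphisms for the operators `ρ g : M → M`. -/
structure Coc {G M : Type*} [Group G] [TopologicalSpace G] [AddCommGroup M] (ρ : G → M → M)
    (Z : G → M) : Prop where
  loc : IsLocallyConstant Z
  mul : ∀ g h, Z (g * h) = Z g + ρ g (Z h)

/-- A locally constant action by additive maps such that the `p ^ k`-th power of `g` acts as the
integer `ω(g) ^ (p ^ k)` for large `k`. -/
structure ActP (p : ℕ) {G M : Type*} [Group G] [TopologicalSpace G] [AddCommGroup M]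
    (ω : G → ZMod p) (ρ : G → M → M) : Prop where
  add : ∀ g x y, ρ g (x + y) = ρ g x + ρ g y
  one : ∀ x, ρ 1 x = x
  mul : ∀ g h x, ρ (g * h) x = ρ g (ρ h x)
  loc : ∀ x, IsLocallyConstant fun g => ρ g x
  uni : ∀ g, ∃ k : ℕ, ∀ x, ρ (g ^ p ^ k) x = ((ω g).val ^ p ^ k) • x

/-- Unique existence of crossed homomorphisms to `ZMod p` (for `ω`) with given restrictions to the
`W w` and given values at the `e j`. -/
def UE (p : ℕ) {G S J : Type*} [Group G] [TopologicalSpace G] (ω : G → ZMod p)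
    (W : S → Subgroup G) (e : J → G) : Prop :=
  ∀ h : ∀ w, W w → ZMod p, (∀ w, Coc (fun (g : W w) (x : ZMod p) => ω g * x) (h w)) →
    ∀ c : J → ZMod p, ∃! H : G → ZMod p, Coc (fun (g : G) (x : ZMod p) => ω g * x) H ∧
      (∀ w (g : W w), H g = h w g) ∧ ∀ j, H (e j) = c j

/-- `H²(G, ZMod p(ω)) = 0` (locally constant cochains). -/
def H2Z (p : ℕ) {G : Type*} [Group G] [TopologicalSpace G] (ω : G → ZMod p) : Prop :=
  ∀ c : G → G → ZMod p, IsLocallyConstant (fun q : G × G => c q.1 q.2) →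
    (∀ a b d, ω a * c b d - c (a * b) d + c a (b * d) - c a b = 0) →
      ∃ b : G → ZMod p, IsLocallyConstant b ∧ ∀ g h, c g h = b g + ω g * b h - b (g * h)

/-- The rings `Λ = Z[ζ] / π ^ n`, `π = 1 - ζ`. -/
structure LR (p n : ℕ) {Λ : Type*} [CommRing Λ] (π : Λ) : Prop where
  card : Nat.card Λ = p ^ n
  nil : π ^ n = 0
  res : ∀ x : Λ, ∃ (c : ℕ) (y : Λ), x = c + π * y
  pdv : ∃ y, (p : Λ) = π * y
  phi : ∑ i ∈ Finset.range p, (1 - π) ^ i = 0

open Classical in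
/-- The residue class of `x` modulo `π`. -/
noncomputable def rs {p : ℕ} {Λ : Type*} [CommRing Λ] (π x : Λ) : ZMod p :=
  if h : ∃ (c : ZMod p) (y : Λ), x = ((c.val : ℕ) : Λ) + π * y then h.choose else 0

/-- The power `ζ ^ c` of `ζ = 1 - π`, `c ∈ ZMod p`. -/
def zt {p : ℕ} {Λ : Type*} [CommRing Λ] (π : Λ) (c : ZMod p) : Λ := (1 - π) ^ c.val

/-- Locally constant characters with values in `Λ`, congruent to `ω` modulo `π`. -/
structure Chr {p : ℕ} {G Λ : Type*} [Group G] [TopologicalSpace G] [CommRing Λ] (π : Λ)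
    (ω : G → ZMod p) (ψ : G → Λ) : Prop where
  loc : IsLocallyConstant ψ
  one : ψ 1 = 1
  mul : ∀ a b, ψ (a * b) = ψ a * ψ b
  red : ∀ a, ∃ y, ψ a = ((ω a).val : ℕ) + π * y

/-- The twist of a character by a homomorphism to `ZMod p`. -/
def tw {p : ℕ} {G Λ : Type*} [CommRing Λ] (π : Λ) (ψ : G → Λ) (h : G → ZMod p) : G → Λ :=
  fun g => ψ g * zt π (h g)

/-- The extension of `a : ι → Λ` by `0` at the base place. -/
def ax {ι Λ : Type*} [Zero Λ] (a : ι → Λ) : Option ι → Λ := fun w => w.elim 0 a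

section Z

variable {G ι J Λ : Type*} [Group G] [TopologicalSpace G] [CommRing Λ]

/-- `Z` is the crossed homomorphism for `χ` which is `a w * (1 - χ)` on `W w` for all `w`
(`0` on `W none`). -/
structure IsZ (W : Option ι → Subgroup G) (χ : G → Λ) (a : ι → Λ) (Z : G → Λ) : Prop where
  coc : Coc (fun g x => χ g * x) Z
  res : ∀ w, ∀ g ∈ W w, Z g = ax a w * (1 - χ g)

open Classical in
/-- The crossed homomorphism of `IsZ`. -/
noncomputable def Zf (W : Option ι → Subgroup G) (χ : G → Λ) (a : ι → Λ) : G → Λ :=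
  if h : ∃ Z, IsZ W χ a Z then h.choose else 0

/-- The defects. -/
noncomputable def Tj (W : Option ι → Subgroup G) (e : J → G) (pl : J → ι) (χ : G → Λ)
    (a : ι → Λ) (j : J) : Λ :=
  Zf W χ a (e j) - a (pl j) * (1 - χ (e j))

/-- The number of the solutions. -/
noncomputable def XX (W : Option ι → Subgroup G) (e : J → G) (pl : J → ι) (χ : G → Λ) : ℕ :=
  {a : ι → Λ | ∀ j, Tj W e pl χ a j = 0}.ncard

end Z

/-- The sign of a Boolean. -/
def sb (b : Bool) : ℤ := if b then -1 else 1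

/-- The data: a character `ω`, subgroups `W w`, elements `e j`, homomorphisms `h x`, `x ∈ X`, and
finite subgroups `𝔇 w e` of `X`. -/
structure Fam (p : ℕ) (G ι J X : Type*) [Group G] [TopologicalSpace G] [AddCommGroup X] where
  ω : G → ZMod p
  W : Option ι → Subgroup G
  e : J → G
  pl : J → ι
  h : X → G → ZMod p
  𝔇 : Option ι → ℕ → AddSubgroup X
  s1 : ι → Prop

/-- The axioms. `s1 v` says that `ω` is trivial at the place `v`. -/
structure Fam.Good {p : ℕ} [NeZero p] {G ι J X : Type*} [Group G] [TopologicalSpace G] [AddCommGroup X]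
    [DecidableEq ι] [DecidableEq J] (A : Fam p G ι J X) : Prop where
  om : ChO p A.ω
  hom : ∀ x, HomP p (A.h x)
  add : ∀ x y g, A.h (x + y) g = A.h x g + A.h y g
  w1 : ∀ v, ∀ g ∈ A.W (some v), A.ω g = 1
  e1 : ∀ j, A.s1 (A.pl j) → A.ω (A.e j) = 1
  sol : ∀ v, ¬ A.s1 v → ∃ j, A.pl j = v ∧ A.ω (A.e j) ≠ 1
  uex : UE p A.ω A.W (Empty.elim : Empty → G)
  h2 : H2Z p A.ω
  fin : ∀ w e, (A.𝔇 w e : Set X).Finite
  mono : ∀ w, Monotone (A.𝔇 w)
  off : ∀ w e, ∀ x ∈ A.𝔇 w e, ∀ w', w' ≠ w → ∀ g ∈ A.W w', A.h x g = 0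
  phi : ∀ w e, ∀ x ∈ A.𝔇 w e, ∀ j, some (A.pl j) ≠ w → A.h x (A.e j) = 0
  big : ∀ B : ℕ, ∃ e, B * {x | x ∈ A.𝔇 none e ∧ ∀ g ∈ A.W none, A.h x g = 0}.ncard ≤
    Nat.card (A.𝔇 none e)
  ax1 : ∀ v₁, A.s1 v₁ → ∀ j₀ : J, ∃ e, ∃ δ ∈ A.𝔇 (some v₁) e, ∃ Y : G → ZMod p,
    Coc (fun g x => A.ω g * x) Y ∧ (∀ w, w ≠ some v₁ → ∀ g ∈ A.W w, Y g = 0) ∧
    (∀ g ∈ A.W (some v₁), Y g = A.h δ g) ∧
    ∀ j, Y (A.e j) - (if A.pl j = v₁ then A.h δ (A.e j) else 0) = if j = j₀ then 1 else 0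
  axm : ∀ (m : ℕ), 1 ≤ m → ∀ δ : Fin m → X, (∃ e, ∀ i, δ i ∈ A.𝔇 none e) →
    (∀ c : Fin m → ZMod p, (∀ g ∈ A.W none, ∑ i, c i * A.h (δ i) g = 0) → c = 0) →
    ∀ v₁, A.s1 v₁ → ∀ j₀ : J, ∃ e, ∃ δ₁ ∈ A.𝔇 (some v₁) e, ∃ ζ : G → (Fin m → ZMod p) → ZMod p,
      IsLocallyConstant ζ ∧
      (∀ g g' τ, ζ (g * g') τ = ζ g τ + A.ω g * ζ g' (fun i => τ i - A.h (δ i) g)) ∧
      (∀ w, w ≠ some v₁ → ∀ g ∈ A.W w, ∀ τ, ζ g τ = 0) ∧
      (∀ g ∈ A.W (some v₁), ∀ τ, ζ g τ = if τ = 0 then A.h δ₁ g else 0) ∧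
      ∀ j, ∑ τ : Fin m → ZMod p, (∏ i, τ i) * ζ (A.e j) τ = if j = j₀ then 1 else 0

end Pool.Agent.MP72P
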