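import Pool.Agent.Lib.MP_72e2e6_nt.P3.A.Spec

/-!
# MP_72e2e6_nt, theorem T3p, part A: duality count
-/

set_option autoImplicit false

namespace Pool.Agent.MP72P

open Finset

private theorem Dual_root {N : ℕ} [NeZero N] {z : ℂ} (h : z ^ N = 1) :
    ∃ x : ZMod N, ZMod.stdAddChar x = z := by
  have hz : IsUnit z := IsUnit.of_pow_eq_one h (NeZero.ne N)
  obtain ⟨u, rfl⟩ := hz
  have h1 : u ∈ rootsOfUnity N ℂ := by
    rw [_root_.mem_rootsOfUnity, Units.ext_iff, Units.val_pow_eq_pow_val, Units.val_one]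
    exact h
  obtain ⟨i, _, hi⟩ := (Complex.mem_rootsOfUnity N u).1 h1
  refine ⟨((i : ℤ) : ZMod N), ?_⟩
  rw [ZMod.stdAddChar_coe, ← hi]
  congr 1
  push_cast
  ring

private theorem Dual_bij {N : ℕ} [NeZero N] {C : Type} [AddCommGroup C]
    (hC : ∀ c : C, N • c = 0) :
    Function.Bijective fun θ : C →+ ZMod N =>
      (ZMod.stdAddChar (N := N)).compAddMonoidHom θ := by
  constructor
  · intro θ θ' h
    ext c
    have h1 := DFunLike.congr_fun h c
    exact ZMod.injective_stdAddChar h1
  · intro χ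
    have h1 : ∀ c, ∃ x : ZMod N, ZMod.stdAddChar x = χ c := by
      intro c
      apply Dual_root
      rw [← AddChar.map_nsmul_eq_pow, hC, AddChar.map_zero_eq_one]
    choose f hf using h1
    have h0 : f 0 = 0 := by
      apply ZMod.injective_stdAddChar
      rw [hf, AddChar.map_zero_eq_one, AddChar.map_zero_eq_one]
    have ha : ∀ x y, f (x + y) = f x + f y := by
      intro x y
      apply ZMod.injective_stdAddChar
      rw [hf, AddChar.map_add_eq_mul, AddChar.map_add_eq_mul, hf, hf]
    refine ⟨⟨⟨f, h0⟩, ha⟩, ?_⟩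
    ext c
    exact hf c

private theorem Dual_count {B C : Type} [AddCommGroup B] [AddCommGroup C] [Fintype B] [Fintype C]
    (T : B →+ C) (h : Fintype.card B = Fintype.card C) :
    {χ : AddChar C ℂ | ∀ b, χ (T b) = 1}.ncard = {b : B | T b = 0}.ncard := by
  classical
  have hA : ∑ χ : AddChar C ℂ, ∑ b : B, χ (T b)
      = ({χ : AddChar C ℂ | ∀ b, χ (T b) = 1}.ncard : ℂ) * Fintype.card B := by
    have h1 : ∀ χ : AddChar C ℂ, ∑ b : B, χ (T b)
        = if ∀ b, χ (T b) = 1 then (Fintype.card B : ℂ) else 0 := by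
      intro χ
      have h2 := AddChar.sum_eq_ite (χ.compAddMonoidHom T)
      simp only [AddChar.compAddMonoidHom_apply] at h2
      rw [h2]
      have h3 : (χ.compAddMonoidHom T = 0) ↔ ∀ b, χ (T b) = 1 := by
        constructor
        · intro h b
          have h4 := DFunLike.congr_fun h b
          simpa using h4
        · intro h
          ext b
          simpa using h b
      by_cases h4 : ∀ b, χ (T b) = 1
      · rw [if_pos h4, if_pos (h3.2 h4)]
      · rw [if_neg h4, if_neg (fun h => h4 (h3.1 h))]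
    rw [Finset.sum_congr rfl fun χ _ => h1 χ, ← Finset.sum_filter, Finset.sum_const, nsmul_eq_mul]
    congr 2
    rw [Set.ncard_eq_toFinset_card', Set.toFinset_setOf]
  have hB : ∑ b : B, ∑ χ : AddChar C ℂ, χ (T b)
      = (Fintype.card C : ℂ) * ({b : B | T b = 0}.ncard : ℂ) := by
    rw [Finset.sum_congr rfl fun b _ => AddChar.sum_apply_eq_ite (T b), ← Finset.sum_filter,
      Finset.sum_const, nsmul_eq_mul, mul_comm]
    congr 2
    rw [Set.ncard_eq_toFinset_card', Set.toFinset_setOf]
  have hC := Finset.sum_comm (s := (Finset.univ : Finset (AddChar C ℂ)))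
    (t := (Finset.univ : Finset B)) (f := fun χ b => (χ (T b) : ℂ))
  have hD : (({χ : AddChar C ℂ | ∀ b, χ (T b) = 1}.ncard * Fintype.card B : ℕ) : ℂ)
      = ((Fintype.card C * {b : B | T b = 0}.ncard : ℕ) : ℂ) := by
    push_cast
    rw [← hA, ← hB]
    exact hC
  have hE : {χ : AddChar C ℂ | ∀ b, χ (T b) = 1}.ncard * Fintype.card B
      = Fintype.card C * {b : B | T b = 0}.ncard := by exact_mod_cast hD
  rw [h, mul_comm] at hE
  exact Nat.eq_of_mul_eq_mul_left Fintype.card_pos hE

theorem tDual : S_Dual := by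
  classical
  intro N _ B C _ _ _ _ T hBC hC
  have _ := Fintype.ofFinite B
  have _ := Fintype.ofFinite C
  rw [Nat.card_eq_fintype_card, Nat.card_eq_fintype_card] at hBC
  have hfin : Finite (C →+ ZMod N) :=
    Finite.of_injective (fun θ : C →+ ZMod N => (θ : C → ZMod N)) DFunLike.coe_injective
  refine ⟨Set.toFinite _, ?_⟩
  rw [← Dual_count T hBC]
  have hb := Dual_bij hC
  have hi : (fun θ : C →+ ZMod N => (ZMod.stdAddChar (N := N)).compAddMonoidHom θ) ''
      {θ : C →+ ZMod N | ∀ b, θ (T b) = 0} = {χ : AddChar C ℂ | ∀ b, χ (T b) = 1} := by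
    ext χ
    constructor
    · rintro ⟨θ, hθ, rfl⟩ b
      show ZMod.stdAddChar (θ (T b)) = 1
      rw [hθ b, AddChar.map_zero_eq_one]
    · intro hχ
      obtain ⟨θ, rfl⟩ := hb.2 χ
      refine ⟨θ, fun b => ?_, rfl⟩
      have h1 : ZMod.stdAddChar (θ (T b)) = 1 := hχ b
      exact ZMod.injective_stdAddChar (h1.trans (AddChar.map_zero_eq_one _).symm)
  rw [← hi, Set.ncard_image_of_injective _ hb.1]

end Pool.Agent.MP72P
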