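import Pool.Agent.Lib.MP_72e2e6_nt.P3.A.Spec

/-!
# MP_72e2e6_nt, theorem T3p, part A: a fixed element
-/

namespace Pool.Agent.MP72P

open Finset

/-- The elements killed by `p`. -/
private def Fix_M (p : ℕ) (M : Type) [AddCommGroup M] : AddSubgroup M where
  carrier := {m | p • m = 0}
  add_mem' := by
    intro a b ha hb
    show p • (a + b) = 0
    rw [smul_add, show p • a = 0 from ha, show p • b = 0 from hb, add_zero]
  zero_mem' := smul_zero p
  neg_mem' := by
    intro a ha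
    show p • (-a) = 0
    rw [smul_neg, show p • a = 0 from ha, neg_zero]

section Fix

variable {p : ℕ} [Fact p.Prime] {G : Type} [Group G] [TopologicalSpace G] {M : Type}
  [AddCommGroup M] {ω : G → ZMod p} {ρ : G → M → M}

omit [Fact p.Prime] in
private theorem Fix_zero (hρ : ActP p ω ρ) (g : G) : ρ g 0 = 0 := by
  have h := hρ.add g 0 0
  rw [add_zero] at h
  exact left_eq_add.1 h

omit [Fact p.Prime] in
private theorem Fix_nsmul (hρ : ActP p ω ρ) (g : G) (n : ℕ) (x : M) : ρ g (n • x) = n • ρ g x := by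
  induction n with
  | zero => rw [zero_smul, zero_smul, Fix_zero hρ]
  | succ n ih => rw [succ_nsmul, succ_nsmul, hρ.add, ih]

/-- Multiples of elements killed by `p` depend only on the class modulo `p`. -/
private theorem Fix_mod {x : M} (hx : p • x = 0) {a b : ℕ} (hab : (a : ZMod p) = b) :
    a • x = b • x := by
  have h1 : ∀ a : ℕ, a • x = (a % p) • x := by
    intro a
    conv_lhs => rw [← Nat.mod_add_div a p, add_smul, mul_comm p, mul_smul, hx, smul_zero, add_zero]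
  rw [h1 a, h1 b, (ZMod.natCast_eq_natCast_iff' a b p).1 hab]

omit [Fact p.Prime] in
private theorem Fix_mem (hρ : ActP p ω ρ) (n : ℕ) (g : G) (x : Fix_M p M) :
    n • ρ g x ∈ Fix_M p M := by
  show p • (n • ρ g x) = 0
  rw [smul_comm, ← Fix_nsmul hρ, show p • (x : M) = 0 from x.2, Fix_zero hρ, smul_zero]

private theorem Fix_mul (hω : ChO p ω) (hρ : ActP p ω ρ) (g h : G) (x : M) (hx : p • x = 0) :
    ((ω (g * h))⁻¹).val • ρ (g * h) x = ((ω g)⁻¹).val • ρ g (((ω h)⁻¹).val • ρ h x) := by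
  have hx' : p • ρ (g * h) x = 0 := by
    rw [← Fix_nsmul hρ, hx, Fix_zero hρ]
  rw [Fix_nsmul hρ, ← mul_smul, ← hρ.mul]
  refine Fix_mod hx' ?_
  push_cast
  rw [ZMod.natCast_zmod_val, ZMod.natCast_zmod_val, ZMod.natCast_zmod_val, hω.mul, mul_inv]

private theorem Fix_one (hω : ChO p ω) (hρ : ActP p ω ρ) (x : M) :
    ((ω 1)⁻¹).val • ρ 1 x = x := by
  rw [hω.one, inv_one, hρ.one, ZMod.val_one, one_smul]

/-- The twisted action on the elements killed by `p`. -/
private def Fix_f (hω : ChO p ω) (hρ : ActP p ω ρ) : G →* Equiv.Perm (Fix_M p M) :=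
  MonoidHom.mk' (fun g =>
    { toFun := fun x => ⟨((ω g)⁻¹).val • ρ g x, Fix_mem hρ _ g x⟩
      invFun := fun x => ⟨((ω g⁻¹)⁻¹).val • ρ g⁻¹ x, Fix_mem hρ _ g⁻¹ x⟩
      left_inv := fun x => Subtype.ext (by
        show ((ω g⁻¹)⁻¹).val • ρ g⁻¹ (((ω g)⁻¹).val • ρ g x) = x
        rw [← Fix_mul hω hρ g⁻¹ g x x.2, inv_mul_cancel, Fix_one hω hρ])
      right_inv := fun x => Subtype.ext (by
        show ((ω g)⁻¹).val • ρ g (((ω g⁻¹)⁻¹).val • ρ g⁻¹ x) = x
        rw [← Fix_mul hω hρ g g⁻¹ x x.2, mul_inv_cancel, Fix_one hω hρ]) })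
    (fun g h => Equiv.ext fun x => Subtype.ext (by
      show ((ω (g * h))⁻¹).val • ρ (g * h) x = ((ω g)⁻¹).val • ρ g (((ω h)⁻¹).val • ρ h x)
      exact Fix_mul hω hρ g h x x.2))

private theorem Fix_f_apply (hω : ChO p ω) (hρ : ActP p ω ρ) (g : G) (x : Fix_M p M) :
    ((Fix_f hω hρ g x : Fix_M p M) : M) = ((ω g)⁻¹).val • ρ g x := rfl

private theorem Fix_pow (hω : ChO p ω) (g : G) (k : ℕ) : ω (g ^ k) = ω g ^ k := by
  induction k with
  | zero => rw [pow_zero, pow_zero, hω.one]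
  | succ k ih => rw [pow_succ, pow_succ, hω.mul, ih]

end Fix

theorem tFix : S_Fix := by
  intro p _ G _ _ M _ _ ω ρ hω hρ r hr hM
  have hpp : p.Prime := Fact.out
  have hP : IsPGroup p (Fix_f hω hρ).range := by
    rintro ⟨_, g, rfl⟩
    obtain ⟨k, hk⟩ := hρ.uni g
    refine ⟨k, Subtype.ext ?_⟩
    show (Fix_f hω hρ g) ^ p ^ k = 1
    rw [← map_pow]
    refine Equiv.ext fun x => Subtype.ext ?_
    rw [Fix_f_apply, hk, ← mul_smul]
    show _ = (x : M)
    have h1 : ((ω (g ^ p ^ k))⁻¹.val * (ω g).val ^ p ^ k) • (x : M) = 1 • (x : M) := by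
      refine Fix_mod (p := p) x.2 ?_
      push_cast
      rw [ZMod.natCast_zmod_val, ZMod.natCast_zmod_val, Fix_pow hω]
      exact inv_mul_cancel₀ (pow_ne_zero _ (hω.ne g))
    rw [h1, one_smul]
  have hr0 : r ≠ 0 := by
    rintro rfl
    rw [pow_zero] at hr
    exact absurd hr (Finite.one_lt_card_iff_nontrivial.2 hM).ne'
  have hdvd : p ∣ Nat.card M := by
    rw [hr]
    exact dvd_pow_self p hr0
  have hcard : p ∣ Nat.card (Fix_M p M) := by
    obtain ⟨x, hx⟩ := exists_prime_addOrderOf_dvd_card' (G := M) p hdvd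
    have hx2 : x ∈ Fix_M p M := by
      show p • x = 0
      rw [← hx]
      exact addOrderOf_nsmul_eq_zero x
    have h3 : addOrderOf (⟨x, hx2⟩ : Fix_M p M) = p := (AddSubgroup.addOrderOf_mk x hx2).trans hx
    have h4 := addOrderOf_dvd_natCard (⟨x, hx2⟩ : Fix_M p M)
    rwa [h3] at h4
  have h0 : (0 : Fix_M p M) ∈ MulAction.fixedPoints (Fix_f hω hρ).range (Fix_M p M) := by
    rintro ⟨_, g, rfl⟩
    refine Subtype.ext ?_
    show ((ω g)⁻¹).val • ρ g 0 = 0
    rw [Fix_zero hρ, smul_zero]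
  obtain ⟨b, hb, hb0⟩ := hP.exists_fixed_point_of_prime_dvd_card_of_fixed_point
    (Fix_M p M) hcard h0
  have hb2 : p • (b : M) = 0 := b.2
  refine ⟨b, fun h => hb0 (Subtype.ext h.symm), hb2, fun g => ?_⟩
  have h4 := hb ⟨Fix_f hω hρ g, g, rfl⟩
  have h5 : ((ω g)⁻¹).val • ρ g b = b := congrArg Subtype.val h4
  have h6 : p • ρ g (b : M) = 0 := by
    rw [← Fix_nsmul hρ, hb2, Fix_zero hρ]
  calc ρ g b = 1 • ρ g b := (one_smul _ _).symm
    _ = ((ω g).val * ((ω g)⁻¹).val) • ρ g b := by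
      refine Fix_mod (p := p) h6 ?_
      push_cast
      rw [ZMod.natCast_zmod_val, ZMod.natCast_zmod_val]
      exact (mul_inv_cancel₀ (hω.ne g)).symm
    _ = (ω g).val • (((ω g)⁻¹).val • ρ g b) := mul_smul _ _ _
    _ = (ω g).val • b := by rw [h5]

end Pool.Agent.MP72P
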