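import Pool.Agent.Lib.MP_72e2e6_nt.P3.A.Spec

/-!
# MP_72e2e6_nt, theorem T3p, part A: the ring and the functions on `ZMod p` (Lfn)
-/

namespace Pool.Agent.MP72P

open Finset Polynomial

private theorem lfn_pow_mod {M : Type} [Monoid M] {x : M} {p : ℕ} (h : x ^ p = 1) (m : ℕ) :
    x ^ (m % p) = x ^ m := by
  conv_rhs => rw [← Nat.mod_add_div m p, pow_add, pow_mul, h, one_pow, mul_one]

/-- `(X - 1) ^ (p - 1)` and `Φ` are equal modulo `p`. -/
private theorem lfn_modp (p : ℕ) [Fact p.Prime] :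
    ∃ G : ℤ[X], (X - 1) ^ (p - 1) - ∑ i ∈ range p, X ^ i = (p : ℤ[X]) * G := by
  have h1 : ((X - 1 : (ZMod p)[X]) ^ (p - 1)) = ∑ i ∈ range p, X ^ i := by
    have h2 := cyclotomic_mul_prime_eq_pow_of_not_dvd (ZMod p) (p := p) (n := 1)
      (fun h => (Fact.out : p.Prime).one_lt.ne' (Nat.dvd_one.1 h))
    rw [one_mul, cyclotomic_one, cyclotomic_prime] at h2
    exact h2.symm
  have h3 : (C (p : ℤ)) ∣ ((X - 1) ^ (p - 1) - ∑ i ∈ range p, X ^ i : ℤ[X]) := by
    rw [C_dvd_iff_dvd_coeff]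
    intro i
    rw [← ZMod.intCast_zmod_eq_zero_iff_dvd]
    have h4 : (((X - 1) ^ (p - 1) - ∑ i ∈ range p, X ^ i : ℤ[X]).map
        (Int.castRingHom (ZMod p))).coeff i = 0 := by
      rw [Polynomial.map_sub, Polynomial.map_pow, Polynomial.map_sub, Polynomial.map_sum]
      simp only [map_X, Polynomial.map_one, Polynomial.map_pow]
      rw [h1, sub_self, coeff_zero]
    rw [coeff_map] at h4
    exact h4
  obtain ⟨G, hG⟩ := h3
  refine ⟨G, ?_⟩
  rw [hG]
  simp

private theorem lfn_deg (p : ℕ) [Fact p.Prime] (R : Type) [CommRing R] [Nontrivial R] :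
    (∑ i ∈ range p, X ^ i : R[X]).natDegree = p - 1 := by
  rw [← cyclotomic_prime R p, natDegree_cyclotomic, Nat.totient_prime (Fact.out : p.Prime)]

private noncomputable def lfnP {p : ℕ} [NeZero p] {R : Type} [CommRing R] (z : ZMod p → R) : R[X] :=
  ∑ i : ZMod p, C (z i) * X ^ i.val

private theorem lfn_coeff {p : ℕ} [NeZero p] {R : Type} [CommRing R] (z : ZMod p → R) (j : ZMod p) :
    (lfnP z).coeff j.val = z j := by
  rw [lfnP, finsetSum_coeff]
  rw [Finset.sum_eq_single j]
  · rw [coeff_C_mul_X_pow, if_pos rfl]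
  · intro b _ hb
    rw [coeff_C_mul_X_pow, if_neg]
    intro h
    exact hb (ZMod.val_injective p h.symm)
  · intro h
    exact absurd (Finset.mem_univ j) h

private theorem lfn_coeff_ge {p : ℕ} [NeZero p] {R : Type} [CommRing R] (z : ZMod p → R) (m : ℕ)
    (hm : p ≤ m) : (lfnP z).coeff m = 0 := by
  rw [lfnP, finsetSum_coeff]
  refine Finset.sum_eq_zero fun i _ => ?_
  rw [coeff_C_mul_X_pow, if_neg]
  intro h
  have := ZMod.val_lt i
  omega

private theorem lfn_const {p : ℕ} [NeZero p] {R : Type} [CommRing R] (c : R) :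
    lfnP (fun _ : ZMod p => c) = C c * ∑ i ∈ range p, X ^ i := by
  rw [lfnP, Finset.mul_sum]
  refine Finset.sum_bij (fun (i : ZMod p) _ => i.val) ?_ ?_ ?_ ?_
  · intro i _
    exact Finset.mem_range.2 (ZMod.val_lt i)
  · intro i _ j _ h
    exact ZMod.val_injective p h
  · intro m hm
    refine ⟨(m : ZMod p), Finset.mem_univ _, ?_⟩
    exact ZMod.val_cast_of_lt (Finset.mem_range.1 hm)
  · intro i _
    rfl

theorem tLfn : S_Lfn := by
  intro p _ k
  have hp : p.Prime := Fact.out
  have : NeZero p := ⟨hp.ne_zero⟩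
  have : NeZero (p ^ k) := ⟨pow_ne_zero _ hp.ne_zero⟩
  let R := ZMod (p ^ k)
  let Φ : R[X] := ∑ i ∈ range p, X ^ i
  have hΦm : Φ.Monic := monic_geom_sum_X hp.ne_zero
  let Λ := AdjoinRoot Φ
  let ζ : Λ := AdjoinRoot.root Φ
  let φ : (ZMod p → R) → Λ := fun z => AdjoinRoot.mk Φ (lfnP z)
  have hφ : ∀ z, φ z = ∑ i : ZMod p, AdjoinRoot.of Φ (z i) * ζ ^ i.val := by
    intro z
    show AdjoinRoot.mk Φ (∑ i : ZMod p, C (z i) * X ^ i.val) = _
    rw [map_sum]
    refine Finset.sum_congr rfl fun i _ => ?_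
    rw [map_mul, map_pow, AdjoinRoot.mk_C, AdjoinRoot.mk_X]
  have hζ0 : ∑ i ∈ range p, ζ ^ i = 0 := by
    have h1 : AdjoinRoot.mk Φ Φ = 0 := AdjoinRoot.mk_self
    have h2 : AdjoinRoot.mk Φ (∑ i ∈ range p, X ^ i) = 0 := h1
    rw [map_sum] at h2
    simpa only [map_pow, AdjoinRoot.mk_X] using h2
  have hζp : ζ ^ p = 1 := by
    have h1 := geom_sum_mul ζ p
    rw [hζ0, zero_mul] at h1
    exact (sub_eq_zero.1 h1.symm)
  have hpk : ((p ^ k : ℕ) : Λ) = 0 := by
    have h1 : AdjoinRoot.of Φ ((p ^ k : ℕ) : R) = ((p ^ k : ℕ) : Λ) := map_natCast _ _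
    rw [← h1, ZMod.natCast_self, map_zero]
  have hval : ∀ c : R, AdjoinRoot.of Φ c = ((c.val : ℕ) : Λ) := by
    intro c
    conv_lhs => rw [← ZMod.natCast_zmod_val c]
    exact map_natCast _ _
  have hwi : ∀ i : ℕ, ∃ w, ζ ^ i = 1 - (1 - ζ) * w := by
    intro i
    obtain ⟨w, hw⟩ := sub_dvd_pow_sub_pow (1 : Λ) ζ i
    refine ⟨w, ?_⟩
    rw [← hw, one_pow]
    ring
  choose w hw using hwi
  have hsurj : Function.Surjective φ := by
    intro x
    obtain ⟨f, rfl⟩ := AdjoinRoot.mk_surjective x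
    refine ⟨fun i => (f %ₘ Φ).coeff i.val, ?_⟩
    show AdjoinRoot.mk Φ (lfnP fun i => (f %ₘ Φ).coeff i.val) = AdjoinRoot.mk Φ f
    have h1 : lfnP (fun i : ZMod p => (f %ₘ Φ).coeff i.val) = f %ₘ Φ := by
      ext m
      by_cases hm : m < p
      · have h2 := lfn_coeff (fun i : ZMod p => (f %ₘ Φ).coeff i.val) (m : ZMod p)
        rw [ZMod.val_cast_of_lt hm] at h2
        exact h2
      · rw [lfn_coeff_ge _ m (not_lt.1 hm)]
        rcases subsingleton_or_nontrivial R with hs | hn
        · exact Subsingleton.elim _ _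
        · symm
          apply coeff_eq_zero_of_natDegree_lt
          have h3 := natDegree_modByMonic_lt f hΦm (by
            intro h
            have h4 := lfn_deg p R
            have h5 : Φ.natDegree = p - 1 := h4
            rw [h, natDegree_one] at h5
            have h6 := hp.two_le
            omega)
          have h4 : Φ.natDegree = p - 1 := lfn_deg p R
          omega
    rw [h1, AdjoinRoot.mk_eq_mk]
    have h2 := modByMonic_add_div f Φ
    refine ⟨-(f /ₘ Φ), ?_⟩
    linear_combination h2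
  have hadd : ∀ z z', φ (z + z') = φ z + φ z' := by
    intro z z'
    rw [hφ, hφ, hφ, ← Finset.sum_add_distrib]
    refine Finset.sum_congr rfl fun i _ => ?_
    rw [Pi.add_apply, map_add, add_mul]
  have hker : ∀ z, φ z = 0 ↔ ∃ c, ∀ i, z i = c := by
    intro z
    constructor
    · intro h
      rcases subsingleton_or_nontrivial R with hs | hn
      · exact ⟨0, fun i => Subsingleton.elim _ _⟩
      · have h1 : Φ ∣ lfnP z := AdjoinRoot.mk_eq_zero.1 h
        obtain ⟨q, hq⟩ := h1
        have hdeg : Φ.natDegree = p - 1 := lfn_deg p R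
        have h2 : q.natDegree = 0 := by
          by_contra hne
          have hq0 : q ≠ 0 := by
            rintro rfl
            exact hne natDegree_zero
          have h3 := hΦm.natDegree_mul' hq0
          rw [← hq, hdeg] at h3
          have h4 : (lfnP z).natDegree ≤ p - 1 := by
            rw [natDegree_le_iff_coeff_eq_zero]
            intro m hm
            exact lfn_coeff_ge z m (by omega)
          omega
        rw [natDegree_eq_zero] at h2
        obtain ⟨c, rfl⟩ := h2
        refine ⟨c, fun i => ?_⟩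
        have h5 : lfnP z = lfnP (fun _ : ZMod p => c) := by
          rw [lfn_const, hq, mul_comm]
        rw [← lfn_coeff z i, h5, lfn_coeff]
    · rintro ⟨c, hc⟩
      have h1 : z = fun _ => c := funext hc
      show AdjoinRoot.mk Φ (lfnP z) = 0
      rw [AdjoinRoot.mk_eq_zero, h1, lfn_const]
      exact ⟨C c, mul_comm _ _⟩
  have hshift : ∀ z (c : ZMod p), φ (fun i => z (i - c)) = ζ ^ c.val * φ z := by
    intro z c
    rw [hφ, hφ, Finset.mul_sum]
    rw [← Equiv.sum_comp (Equiv.addRight c)]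
    refine Finset.sum_congr rfl fun i _ => ?_
    rw [Equiv.coe_addRight, add_sub_cancel_right, ZMod.val_add, lfn_pow_mod hζp, pow_add]
    ring
  refine ⟨Λ, inferInstance, 1 - ζ, φ, ⟨?_, ?_, ?_, ?_, ?_⟩, hpk, hsurj, hadd, hker, ?_, ?_, ?_⟩
  · -- card
    let φh : (ZMod p → R) →+ Λ := AddMonoidHom.mk' φ hadd
    have h1 : Nat.card (ZMod p → R) = Nat.card φh.ker * Nat.card ((ZMod p → R) ⧸ φh.ker) := by
      rw [mul_comm]
      exact AddSubgroup.card_eq_card_quotient_mul_card_addSubgroup _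
    have h2 : Nat.card ((ZMod p → R) ⧸ φh.ker) = Nat.card Λ :=
      Nat.card_congr (QuotientAddGroup.quotientKerEquivOfSurjective φh hsurj).toEquiv
    have h3 : Nat.card φh.ker = p ^ k := by
      have e : R ≃ φh.ker := by
        refine Equiv.ofBijective (fun c => ⟨fun _ => c, (hker _).2 ⟨c, fun _ => rfl⟩⟩) ⟨?_, ?_⟩
        · intro c c' h
          exact congrFun (congrArg Subtype.val h) 0
        · rintro ⟨z, hz⟩
          obtain ⟨c, hc⟩ := (hker z).1 hz
          exact ⟨c, Subtype.ext (funext fun i => (hc i).symm)⟩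
      rw [← Nat.card_congr e]
      exact Nat.card_zmod _
    have h4 : Nat.card (ZMod p → R) = (p ^ k) ^ p := by
      rw [Nat.card_fun, Nat.card_zmod, Nat.card_zmod]
    rw [h2, h3, h4] at h1
    have h5 : (p ^ k) ^ p = p ^ k * p ^ (k * (p - 1)) := by
      rw [pow_mul, ← pow_succ', Nat.sub_add_cancel hp.one_lt.le]
    rw [h5] at h1
    exact (Nat.eq_of_mul_eq_mul_left (pow_pos hp.pos k) h1).symm
  · -- nil
    obtain ⟨G, hG⟩ := lfn_modp p
    have h1 := congrArg (aeval ζ) hG
    simp only [map_sub, map_pow, map_sum, map_mul, aeval_X, map_one, map_natCast] at h1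
    rw [hζ0, sub_zero] at h1
    have h2 : (1 - ζ) ^ (p - 1) = (p : Λ) * ((-1) ^ (p - 1) * aeval ζ G) := by
      have h3 : (1 - ζ) = (-1) * (ζ - 1) := by ring
      rw [h3, mul_pow, h1]
      ring
    rw [mul_comm k, pow_mul, h2, mul_pow]
    have h3 : (p : Λ) ^ k = 0 := by
      rw [← hpk]
      push_cast
      rfl
    rw [h3, zero_mul]
  · -- res
    intro x
    obtain ⟨z, rfl⟩ := hsurj x
    refine ⟨∑ i, (z i).val, -∑ i : ZMod p, ((z i).val : Λ) * w i.val, ?_⟩
    rw [hφ, Nat.cast_sum, mul_neg, Finset.mul_sum, ← sub_eq_add_neg, ← Finset.sum_sub_distrib]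
    refine Finset.sum_congr rfl fun i _ => ?_
    rw [hval, hw i.val]
    ring
  · -- pdv
    refine ⟨∑ i ∈ range p, w i, ?_⟩
    have h1 : ∑ i ∈ range p, (1 - (1 - ζ) * w i) = 0 := by
      rw [← hζ0]
      exact Finset.sum_congr rfl fun i _ => (hw i).symm
    rw [Finset.sum_sub_distrib, Finset.sum_const, Finset.card_range, nsmul_eq_mul, mul_one,
      ← Finset.mul_sum] at h1
    exact sub_eq_zero.1 h1
  · -- phi
    simpa only [sub_sub_cancel] using hζ0
  · intro z c
    rw [zt, sub_sub_cancel]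
    exact hshift z c
  · intro z m
    rw [hφ, hφ, Finset.mul_sum]
    refine Finset.sum_congr rfl fun i _ => ?_
    rw [map_mul, map_natCast]
    ring
  · rw [hφ, Finset.sum_eq_single 0]
    · rw [if_pos rfl, map_one, ZMod.val_zero, pow_zero, mul_one]
    · intro b _ hb
      rw [if_neg hb, map_zero, zero_mul]
    · intro h
      exact absurd (Finset.mem_univ _) h

end Pool.Agent.MP72P
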