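import Pool.Agent.Lib.MP_72e2e6_nt.P3.A.Spec

/-!
# MP_72e2e6_nt, theorem T3p, part A: basic facts on the rings of the type `Z[ζ] / π ^ n`
-/

namespace Pool.Agent.MP72P

open Finset

section Lrb

variable {p : ℕ} [Fact p.Prime] {n : ℕ} {Λ : Type} [CommRing Λ] {π : Λ}

private theorem lrb_finite (h : LR p n π) : Finite Λ := by
  apply Nat.finite_of_card_ne_zero
  rw [h.card]
  exact pow_ne_zero _ (Fact.out : p.Prime).ne_zero

private theorem lrb_zp (h : LR p n π) : (1 - π) ^ p = 1 := by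
  have h1 := geom_sum_mul (1 - π) p
  rw [h.phi, zero_mul] at h1
  exact (sub_eq_zero.1 h1.symm)

private theorem lrb_nil (h : LR p n π) (z : Λ) : IsNilpotent (π * z) :=
  ⟨n, by rw [mul_pow, h.nil, zero_mul]⟩

/-- Integers divisible by `p` are in `(π)`. -/
private theorem lrb_dvd (h : LR p n π) {c : ℤ} (hc : (p : ℤ) ∣ c) : ∃ y, (c : Λ) = π * y := by
  obtain ⟨k, rfl⟩ := hc
  obtain ⟨y, hy⟩ := h.pdv
  refine ⟨y * k, ?_⟩
  push_cast
  rw [hy]
  ring

/-- Bezout. -/
private theorem lrb_bez {c : ℤ} (hc : ¬ (p : ℤ) ∣ c) : ∃ a b : ℤ, c * a + p * b = 1 := by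
  have hp : Prime (p : ℤ) := Nat.prime_iff_prime_int.1 Fact.out
  have h1 : IsCoprime (p : ℤ) c := (hp.irreducible.coprime_iff_not_dvd).2 hc
  obtain ⟨a, b, hab⟩ := h1
  exact ⟨b, a, by linarith⟩

private theorem lrb_alt (h : LR p n π) (x : Λ) : (∃ y, x = π * y) ∨ IsUnit x := by
  obtain ⟨c, y, hx⟩ := h.res x
  by_cases hc : (p : ℤ) ∣ (c : ℤ)
  · left
    obtain ⟨z, hz⟩ := lrb_dvd h hc
    refine ⟨z + y, ?_⟩
    rw [hx, mul_add, ← hz]
    push_cast
    ring
  · right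
    obtain ⟨a, b, hab⟩ := lrb_bez hc
    obtain ⟨w, hw⟩ := h.pdv
    have h1 : x * a = 1 + π * (y * a - w * b) := by
      have h2 : ((c : ℤ) : Λ) * a + p * b = 1 := by
        exact_mod_cast congrArg (Int.cast : ℤ → Λ) hab
      rw [hx]
      push_cast at h2
      rw [hw] at h2
      linear_combination h2
    have h3 : IsUnit (x * (a : Λ)) := by
      rw [h1]
      exact (lrb_nil h _).isUnit_one_add
    exact isUnit_of_mul_isUnit_left h3

private theorem lrb_one (h : LR p n π) (hn : 1 ≤ n) : ¬ ∃ w, (1 : Λ) = π * w := by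
  rintro ⟨w, hw⟩
  have h1 : (1 : Λ) = 0 := by
    have h2 : (1 : Λ) ^ n = (π * w) ^ n := by rw [← hw]
    rw [one_pow, mul_pow, h.nil, zero_mul] at h2
    exact h2
  have hs : Subsingleton Λ := subsingleton_of_zero_eq_one h1.symm
  have h3 : Nat.card Λ = 1 := Nat.card_of_subsingleton (0 : Λ)
  rw [h.card] at h3
  have h4 : 1 < p ^ n := Nat.one_lt_pow (by omega) (Fact.out : p.Prime).one_lt
  omega

private theorem lrb_int (h : LR p n π) (hn : 1 ≤ n) {c : ℤ} (hc : ∃ y, (c : Λ) = π * y) :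
    (p : ℤ) ∣ c := by
  by_contra hd
  obtain ⟨a, b, hab⟩ := lrb_bez hd
  obtain ⟨y, hy⟩ := hc
  obtain ⟨w, hw⟩ := h.pdv
  refine lrb_one h hn ⟨y * a + w * b, ?_⟩
  have h2 : (c : Λ) * a + p * b = 1 := by
    exact_mod_cast congrArg (Int.cast : ℤ → Λ) hab
  rw [hy, hw] at h2
  linear_combination -h2

/-- Uniqueness of the residue class. -/
private theorem lrb_uni (h : LR p n π) (hn : 1 ≤ n) {c c' : ℤ} {y y' : Λ}
    (he : (c : Λ) + π * y = c' + π * y') : (c : ZMod p) = c' := by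
  have h1 : (p : ℤ) ∣ c - c' := by
    refine lrb_int h hn ⟨y' - y, ?_⟩
    push_cast
    linear_combination he
  have h2 := (ZMod.intCast_zmod_eq_zero_iff_dvd (c - c') p).2 h1
  push_cast at h2
  exact sub_eq_zero.1 h2

private theorem lrb_val (c : ZMod p) : (((c.val : ℕ) : ℤ) : ZMod p) = c := by
  rw [Int.cast_natCast, ZMod.natCast_zmod_val]

private theorem lrb_ex (h : LR p n π) (x : Λ) :
    ∃ (c : ZMod p) (y : Λ), x = ((c.val : ℕ) : Λ) + π * y := by
  obtain ⟨c, y, hx⟩ := h.res x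
  obtain ⟨w, hw⟩ := h.pdv
  refine ⟨(c : ZMod p), w * ((c / p : ℕ) : Λ) + y, ?_⟩
  rw [ZMod.val_natCast]
  have h1 : ((c % p : ℕ) : Λ) + p * ((c / p : ℕ) : Λ) = c := by
    exact_mod_cast congrArg (Nat.cast : ℕ → Λ) (Nat.mod_add_div c p)
  rw [hx]
  rw [hw] at h1
  linear_combination -h1

private theorem lrb_rs (h : LR p n π) (x : Λ) :
    ∃ y, x = (((rs π x : ZMod p).val : ℕ) : Λ) + π * y := by
  have h1 := lrb_ex (p := p) h x
  have h2 : (rs π x : ZMod p) = h1.choose := by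
    unfold rs
    rw [dif_pos h1]
  rw [h2]
  exact h1.choose_spec

private theorem lrb_rs_eq (h : LR p n π) (hn : 1 ≤ n) {x : Λ} {c : ℤ} {y : Λ}
    (hx : x = c + π * y) : rs (p := p) π x = (c : ZMod p) := by
  obtain ⟨y', hy'⟩ := lrb_rs (p := p) h x
  have h1 : (((((rs π x : ZMod p).val : ℕ)) : ℤ) : Λ) + π * y' = c + π * y := by
    rw [← hx, Int.cast_natCast]
    exact hy'.symm
  have h2 := lrb_uni h hn h1
  rwa [lrb_val] at h2

/-- Expansion in powers of `π`. -/
private theorem lrb_exp (h : LR p n π) (j : ℕ) (x : Λ) :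
    ∃ (c : Fin j → ZMod p) (y : Λ), x = ∑ i, ((c i).val : Λ) * π ^ (i : ℕ) + π ^ j * y := by
  induction j with
  | zero => exact ⟨fun _ => 0, x, by simp⟩
  | succ j ih =>
    obtain ⟨c, y, hx⟩ := ih
    obtain ⟨d, z, hy⟩ := lrb_ex (p := p) h y
    refine ⟨Fin.snoc c d, z, ?_⟩
    rw [Fin.sum_univ_castSucc]
    simp only [Fin.snoc_castSucc, Fin.snoc_last, Fin.val_castSucc, Fin.val_last]
    rw [pow_succ]
    linear_combination hx + π ^ j * hy

private theorem lrb_pow (h : LR p n π) {j : ℕ} (hj : π ^ j = 0) : n ≤ j := by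
  have hfin := lrb_finite h
  let f : (Fin j → ZMod p) → Λ := fun c => ∑ i, ((c i).val : Λ) * π ^ (i : ℕ)
  have hf : Function.Surjective f := by
    intro x
    obtain ⟨c, y, hx⟩ := lrb_exp (p := p) h j x
    refine ⟨c, ?_⟩
    rw [hj, zero_mul, add_zero] at hx
    exact hx.symm
  have h1 := Nat.card_le_card_of_surjective f hf
  rw [h.card, Nat.card_fun, Nat.card_zmod, Nat.card_fin] at h1
  exact (Nat.pow_le_pow_iff_right (Fact.out : p.Prime).one_lt).1 h1

private theorem lrb_unit (h : LR p n π) (x : Λ) (hx : x ≠ 0) :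
    ∃ i < n, ∃ u : Λ, IsUnit u ∧ x = π ^ i * u := by
  classical
  have hex : ∃ j, ¬ ∃ u, x = π ^ j * u := by
    refine ⟨n, ?_⟩
    rintro ⟨u, hu⟩
    rw [h.nil, zero_mul] at hu
    exact hx hu
  have hmin := Nat.find_spec hex
  have hlt := fun m => Nat.find_min hex (m := m)
  set j := Nat.find hex with hj
  have hj0 : j ≠ 0 := by
    intro h0
    rw [h0] at hmin
    exact hmin ⟨x, by simp⟩
  obtain ⟨i, hi⟩ := Nat.exists_eq_succ_of_ne_zero hj0
  have hi1 : ∃ u, x = π ^ i * u := not_not.1 (hlt i (by omega))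
  obtain ⟨u, hu⟩ := hi1
  have hun : IsUnit u := by
    rcases lrb_alt h u with ⟨y, hy⟩ | hu'
    · exfalso
      apply hmin
      refine ⟨y, ?_⟩
      rw [hi, hu, hy, pow_succ]
      ring
    · exact hu'
  refine ⟨i, ?_, u, hun, hu⟩
  by_contra hni
  apply hx
  have h1 : π ^ i = 0 := pow_eq_zero_of_le (not_lt.1 hni) h.nil
  rw [hu, h1, zero_mul]

private theorem lrb_ann (h : LR p n π) {i : ℕ} (hi : i ≤ n) (x : Λ) :
    π ^ i * x = 0 ↔ ∃ y, x = π ^ (n - i) * y := by
  constructor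
  · intro h0
    by_cases hx : x = 0
    · exact ⟨0, by rw [hx, mul_zero]⟩
    · obtain ⟨j, hj, u, hu, hxu⟩ := lrb_unit h x hx
      have h1 : π ^ (i + j) = 0 := by
        have h2 : π ^ (i + j) * u = 0 := by
          rw [pow_add, mul_assoc, ← hxu, h0]
        exact hu.mul_left_eq_zero.1 h2
      have h3 := lrb_pow h h1
      refine ⟨π ^ (j - (n - i)) * u, ?_⟩
      rw [← mul_assoc, ← pow_add, hxu]
      congr 2
      omega
  · rintro ⟨y, rfl⟩
    rw [← mul_assoc, ← pow_add, Nat.add_sub_cancel' hi, h.nil, zero_mul]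

private theorem lrb_one_sub (π : Λ) (k : ℕ) : ∃ y, 1 - (1 - π) ^ k = (k : Λ) * π + π ^ 2 * y := by
  induction k with
  | zero => exact ⟨0, by simp⟩
  | succ k ih =>
    obtain ⟨y, hy⟩ := ih
    refine ⟨y - k - π * y, ?_⟩
    rw [pow_succ]
    push_cast
    linear_combination (1 - π) * hy

end Lrb

theorem tLrb : S_Lrb := by
  intro p _ n Λ _ π h
  have hp : p.Prime := Fact.out
  refine ⟨lrb_finite h, lrb_zp h, ⟨?_, ?_⟩, lrb_alt h, ?_, ?_, fun i hi x => lrb_ann h hi x,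
    lrb_unit h, ?_, ?_⟩
  · simp [zt]
  · intro a b
    unfold zt
    rw [ZMod.val_add, ← pow_add, ← pow_eq_pow_mod _ (lrb_zp h)]
  · intro hn x
    obtain ⟨c, y, hx⟩ := lrb_ex (p := p) h x
    refine ⟨c, ⟨y, hx⟩, ?_⟩
    rintro c' ⟨y', hx'⟩
    have h1 : ((((c'.val : ℕ)) : ℤ) : Λ) + π * y' = (((c.val : ℕ) : ℤ) : Λ) + π * y := by
      rw [Int.cast_natCast, Int.cast_natCast, ← hx, ← hx']
    have h2 := lrb_uni h hn h1
    rwa [lrb_val, lrb_val] at h2
  · intro hn
    have hzero : ∀ x : Λ, rs (p := p) π x = 0 ↔ ∃ y, x = π * y := by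
      intro x
      constructor
      · intro h0
        obtain ⟨y, hy⟩ := lrb_rs (p := p) h x
        refine ⟨y, ?_⟩
        rw [h0, ZMod.val_zero, Nat.cast_zero, zero_add] at hy
        exact hy
      · rintro ⟨y, hy⟩
        have h1 := lrb_rs_eq (p := p) h hn (x := x) (c := 0) (y := y) (by rw [hy]; simp)
        rw [h1, Int.cast_zero]
    refine ⟨?_, ?_, lrb_rs h, hzero, ?_, ?_⟩
    · intro x x'
      obtain ⟨y, hy⟩ := lrb_rs (p := p) h x
      obtain ⟨y', hy'⟩ := lrb_rs (p := p) h x'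
      have h1 := lrb_rs_eq (p := p) h hn (x := x + x')
        (c := ((rs π x : ZMod p).val : ℤ) + ((rs π x' : ZMod p).val : ℤ)) (y := y + y') (by
          push_cast
          linear_combination hy + hy')
      rw [h1, Int.cast_add, lrb_val, lrb_val]
    · intro x x'
      obtain ⟨y, hy⟩ := lrb_rs (p := p) h x
      obtain ⟨y', hy'⟩ := lrb_rs (p := p) h x'
      have h1 := lrb_rs_eq (p := p) h hn (x := x * x')
        (c := ((rs π x : ZMod p).val : ℤ) * ((rs π x' : ZMod p).val : ℤ))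
        (y := ((rs π x : ZMod p).val : Λ) * y' + y * ((rs π x' : ZMod p).val : Λ) + π * y * y')
        (by
          push_cast
          conv_lhs => rw [hy, hy']
          ring)
      rw [h1, Int.cast_mul, lrb_val, lrb_val]
    · intro k
      have h1 := lrb_rs_eq (p := p) h hn (x := (k : Λ)) (c := (k : ℤ)) (y := 0) (by simp)
      rw [h1, Int.cast_natCast]
    · intro x
      rw [Ne, hzero]
      constructor
      · intro h1
        exact (lrb_alt h x).resolve_left h1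
      · rintro ⟨u, rfl⟩ ⟨y, hy⟩
        refine lrb_one h hn ⟨y * ((u⁻¹ : Λˣ) : Λ), ?_⟩
        rw [← mul_assoc, ← hy, Units.mul_inv]
  · intro c
    exact lrb_one_sub π c.val
  · intro a b hab
    have h1 : (p : ℤ) ∣ (a : ℤ) - b := by
      rw [← ZMod.intCast_zmod_eq_zero_iff_dvd]
      push_cast
      rw [hab, sub_self]
    obtain ⟨y, hy⟩ := lrb_dvd h h1
    refine ⟨y, ?_⟩
    rw [← hy]
    push_cast
    ring

end Pool.Agent.MP72P
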