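import Pool.Agent.Lib.MP_72e2e6_nt.P3.A.Spec

/-!
# MP_72e2e6_nt, theorem T3p, part A: quotients of the rings `Λ` (Lrq)
-/

namespace Pool.Agent.MP72P

open Finset

private theorem lrq_le {p n : ℕ} [Fact p.Prime] {Λ : Type} [CommRing Λ] [Finite Λ] {π : Λ}
    (h : LR p n π) (j : ℕ) : Nat.card (Λ ⧸ Ideal.span {π ^ j}) ≤ p ^ j := by
  have hfin : ∀ I : Ideal Λ, Finite (Λ ⧸ I) := fun I =>
    Finite.of_surjective _ Ideal.Quotient.mk_surjective
  induction j with
  | zero =>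
    have : Subsingleton (Λ ⧸ Ideal.span {π ^ 0}) := by
      rw [Ideal.Quotient.subsingleton_iff, pow_zero, Ideal.span_singleton_one]
    rw [show p ^ 0 = 1 from pow_zero p]
    exact Finite.card_le_one_iff_subsingleton.2 this
  | succ j ih =>
    have hp : 0 < p := (Fact.out : p.Prime).pos
    let g : Fin p × (Λ ⧸ Ideal.span {π ^ j}) → Λ ⧸ Ideal.span {π ^ (j + 1)} := fun q =>
      Ideal.Quotient.mk _ (((q.1 : ℕ) : Λ) + π * Quotient.out q.2)
    have hg : Function.Surjective g := by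
      intro t
      obtain ⟨x, rfl⟩ := Ideal.Quotient.mk_surjective t
      obtain ⟨c, y, hx⟩ := h.res x
      obtain ⟨y', hy'⟩ := h.pdv
      refine ⟨(⟨c % p, Nat.mod_lt _ hp⟩, Ideal.Quotient.mk _ (y + y' * ((c / p : ℕ) : Λ))), ?_⟩
      show Ideal.Quotient.mk _ (((c % p : ℕ) : Λ) + π * Quotient.out
        (Ideal.Quotient.mk (Ideal.span {π ^ j}) (y + y' * ((c / p : ℕ) : Λ)))) = _
      obtain ⟨w, hw⟩ : ∃ w, Quotient.out
          (Ideal.Quotient.mk (Ideal.span {π ^ j}) (y + y' * ((c / p : ℕ) : Λ))) =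
          y + y' * ((c / p : ℕ) : Λ) + π ^ j * w := by
        have h1 : Ideal.Quotient.mk (Ideal.span {π ^ j}) (Quotient.out
          (Ideal.Quotient.mk (Ideal.span {π ^ j}) (y + y' * ((c / p : ℕ) : Λ)))) =
          Ideal.Quotient.mk (Ideal.span {π ^ j}) (y + y' * ((c / p : ℕ) : Λ)) :=
          Quotient.out_eq _
        rw [Ideal.Quotient.eq, Ideal.mem_span_singleton'] at h1
        obtain ⟨w, hw⟩ := h1
        exact ⟨w, by linear_combination -hw⟩
      rw [hw, Ideal.Quotient.eq, Ideal.mem_span_singleton']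
      refine ⟨w, ?_⟩
      have hc : (c : Λ) = ((c % p : ℕ) : Λ) + (p : Λ) * ((c / p : ℕ) : Λ) := by
        have := Nat.mod_add_div c p
        exact_mod_cast congrArg (Nat.cast : ℕ → Λ) this.symm
      rw [hx, hc, hy']
      ring
    calc Nat.card (Λ ⧸ Ideal.span {π ^ (j + 1)})
        ≤ Nat.card (Fin p × (Λ ⧸ Ideal.span {π ^ j})) := Nat.card_le_card_of_surjective g hg
      _ = p * Nat.card (Λ ⧸ Ideal.span {π ^ j}) := by rw [Nat.card_prod, Nat.card_fin]
      _ ≤ p * p ^ j := Nat.mul_le_mul_left _ ih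
      _ = p ^ (j + 1) := by rw [pow_succ, mul_comm]

private theorem lrq_mul {p n : ℕ} {Λ : Type} [CommRing Λ] [Finite Λ] {π : Λ}
    (h : LR p n π) (j : ℕ)
    (hj : ∀ x : Λ, π ^ j * x = 0 ↔ ∃ y, x = π ^ (n - j) * y) :
    Nat.card (Λ ⧸ Ideal.span {π ^ (n - j)}) * Nat.card (Λ ⧸ Ideal.span {π ^ j}) = p ^ n := by
  have hker : LinearMap.ker (LinearMap.toSpanSingleton Λ Λ (π ^ j)) =
      Ideal.span {π ^ (n - j)} := by
    ext x
    rw [LinearMap.mem_ker, LinearMap.toSpanSingleton_apply, smul_eq_mul, mul_comm, hj,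
      Ideal.mem_span_singleton]
    exact Iff.rfl
  have hran : LinearMap.range (LinearMap.toSpanSingleton Λ Λ (π ^ j)) = Ideal.span {π ^ j} :=
    LinearMap.range_toSpanSingleton _
  have e := (LinearMap.toSpanSingleton Λ Λ (π ^ j)).quotKerEquivRange
  have h1 : Nat.card (Λ ⧸ Ideal.span {π ^ (n - j)}) = Nat.card (Ideal.span {π ^ j}) := by
    rw [← hran, ← Nat.card_congr e.toEquiv]
    exact Nat.card_congr (Ideal.quotEquivOfEq hker.symm).toEquiv
  rw [h1, ← h.card]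
  exact (Submodule.card_eq_card_quotient_mul_card (Ideal.span {π ^ j})).symm

theorem tLrq (h1 : S_Lrb) : S_Lrq := by
  intro p _ n Λ _ π h j hj
  obtain ⟨hfin, -, -, -, -, -, hmul, -⟩ := h1 p n Λ π h
  have hp : 0 < p := (Fact.out : p.Prime).pos
  have hc : Nat.card (Λ ⧸ Ideal.span {π ^ j}) = p ^ j := by
    have e1 := lrq_le h j
    have e2 := lrq_le h (n - j)
    have e3 := lrq_mul h j (hmul j hj)
    refine le_antisymm e1 ?_
    by_contra hlt
    push Not at hlt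
    have hpos : 0 < p ^ (n - j) := pow_pos hp _
    have : Nat.card (Λ ⧸ Ideal.span {π ^ (n - j)}) * Nat.card (Λ ⧸ Ideal.span {π ^ j}) <
        p ^ (n - j) * p ^ j :=
      lt_of_le_of_lt (Nat.mul_le_mul_right _ e2) (Nat.mul_lt_mul_of_pos_left hlt hpos)
    rw [e3, ← pow_add, Nat.sub_add_cancel hj] at this
    exact lt_irrefl _ this
  refine ⟨Λ ⧸ Ideal.span {π ^ j}, inferInstance, Ideal.Quotient.mk _, ⟨hc, ?_, ?_, ?_, ?_⟩,
    Ideal.Quotient.mk_surjective, ?_⟩
  · rw [← map_pow, Ideal.Quotient.eq_zero_iff_mem]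
    exact Ideal.mem_span_singleton_self _
  · intro x
    obtain ⟨x, rfl⟩ := Ideal.Quotient.mk_surjective x
    obtain ⟨c, y, hx⟩ := h.res x
    refine ⟨c, Ideal.Quotient.mk _ y, ?_⟩
    rw [hx, map_add, map_mul, map_natCast]
  · obtain ⟨y, hy⟩ := h.pdv
    refine ⟨Ideal.Quotient.mk _ y, ?_⟩
    rw [← map_mul, ← hy, map_natCast]
  · have := congrArg (Ideal.Quotient.mk (Ideal.span {π ^ j})) h.phi
    rw [map_sum, map_zero] at this
    rw [← this]
    exact Finset.sum_congr rfl fun i _ => by rw [map_pow, map_sub, map_one]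
  · intro x
    rw [Ideal.Quotient.eq_zero_iff_mem, Ideal.mem_span_singleton]
    exact Iff.rfl

end Pool.Agent.MP72P
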