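import Pool.Agent.Lib.MP_72e2e6_nt.P3.A.Spec

/-!
# MP_72e2e6_nt, theorem T3p, part A: additive characters of the rings of the type `Z[ζ] / π ^ n`
-/

namespace Pool.Agent.MP72P

open Finset

theorem tLrx (hB : S_Lrb) : S_Lrx := by
  intro p _ n Λ _ π h hn
  obtain ⟨hfin, -, -, -, -, hrs, hann, hunit, -, -⟩ := hB p n Λ π h
  obtain ⟨-, -, hrsx, -, -, -⟩ := hrs hn
  have hp : p.Prime := Fact.out
  have hpi : π ^ (n - 1) ≠ 0 := by
    intro h0
    obtain ⟨y, hy⟩ := (hann (n - 1) (by omega) 1).1 (by rw [h0, zero_mul])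
    have h2 : (1 : Λ) = π * y := by
      rw [show n - (n - 1) = 1 by omega, pow_one] at hy
      exact hy
    have h3 : (1 : Λ) = 0 := by
      have h4 : (1 : Λ) ^ n = (π * y) ^ n := by rw [← h2]
      rw [one_pow, mul_pow, h.nil, zero_mul] at h4
      exact h4
    have hs : Subsingleton Λ := subsingleton_of_zero_eq_one h3.symm
    have h5 : Nat.card Λ = 1 := Nat.card_of_subsingleton (0 : Λ)
    rw [h.card] at h5
    have h6 : 1 < p ^ n := Nat.one_lt_pow (by omega) hp.one_lt
    omega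
  refine ⟨AddChar.exists_apply_ne_zero.2 hpi, fun e he => ⟨?_, ?_, ?_, ?_⟩⟩
  · intro y hy
    obtain ⟨i, hi, u, ⟨v, rfl⟩, hyu⟩ := hunit y hy
    refine ⟨((v⁻¹ : Λˣ) : Λ) * π ^ (n - 1 - i), ?_⟩
    have h1 : ((v⁻¹ : Λˣ) : Λ) * π ^ (n - 1 - i) * y = π ^ (n - 1) := by
      rw [hyu]
      calc ((v⁻¹ : Λˣ) : Λ) * π ^ (n - 1 - i) * (π ^ i * v)
          = (((v⁻¹ : Λˣ) : Λ) * v) * (π ^ (n - 1 - i) * π ^ i) := by ring
        _ = π ^ (n - 1) := by
          rw [Units.inv_mul, one_mul, ← pow_add]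
          congr 1
          omega
    rw [h1]
    exact he
  · intro x
    exact AddChar.norm_apply e x
  · rintro c ⟨v, rfl⟩ h0
    obtain ⟨y, hy⟩ := hrsx ((v⁻¹ : Λˣ) : Λ)
    apply he
    have h1 : π ^ (n - 1) = (rs (p := p) π ((v⁻¹ : Λˣ) : Λ)).val • (π ^ (n - 1) * (v : Λ)) := by
      have h2 : π ^ (n - 1) * (v : Λ) * ((v⁻¹ : Λˣ) : Λ) = π ^ (n - 1) := by
        rw [mul_assoc, Units.mul_inv, mul_one]
      have h3 : π ^ (n - 1) * π = 0 := by
        rw [← pow_succ, show n - 1 + 1 = n by omega, h.nil]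
      rw [nsmul_eq_mul]
      conv_lhs => rw [← h2]
      conv_lhs => rw [hy]
      linear_combination ((v : Λ) * y) * h3
    rw [h1, AddChar.map_nsmul_eq_pow, h0, one_pow]
  · intro i hi Λ' _ f hf hk
    have hs : ∀ y, f (Function.surjInv hf y) = y := Function.surjInv_eq hf
    have hw : ∀ x x', f x = f x' → e (π ^ i * x) = e (π ^ i * x') := by
      intro x x' hx
      obtain ⟨z, hz⟩ := (hk (x - x')).1 (by rw [map_sub, hx, sub_self])
      have h1 : π ^ i * x = π ^ i * x' := by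
        have h2 : π ^ i * (x - x') = 0 := by
          rw [hz, ← mul_assoc, ← pow_add, Nat.add_sub_cancel' (by omega), h.nil, zero_mul]
        rw [mul_sub] at h2
        exact sub_eq_zero.1 h2
      rw [h1]
    let e' : AddChar Λ' ℂ :=
      { toFun := fun y => e (π ^ i * Function.surjInv hf y)
        map_zero_eq_one' := by
          rw [hw _ 0 (by rw [hs, map_zero]), mul_zero, AddChar.map_zero_eq_one]
        map_add_eq_mul' := fun a b => by
          rw [hw _ (Function.surjInv hf a + Function.surjInv hf b)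
            (by rw [hs, map_add, hs, hs]), mul_add, AddChar.map_add_eq_mul] }
    have he' : ∀ x, e' (f x) = e (π ^ i * x) := fun x => hw _ _ (hs _)
    refine ⟨e', he', ?_⟩
    rw [← map_pow, he', ← pow_add, show i + (n - i - 1) = n - 1 by omega]
    exact he

end Pool.Agent.MP72P
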