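import Pool.Agent.Lib.MP_72e2e6_nt.P3.A.Defs

/-!
# MP_72e2e6_nt, theorem T3p, part A (abstract part)

The proofs are complete in the docstrings; every module is independent (used statements are
hypotheses): file `P3/A/<Name>.lean` (import this file only) with `theorem t<Name> : S_<Name>` or
`theorem t<Name> (h1 : S_X) (h2 : S_Y) .. : S_<Name>` (the used statements in the order of the
docstring), namespace `Pool.Agent.MP72P`, other declarations `private`. The corresponding modules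
for `p = 2` (`ZMod (2 ^ n)` in the place of `Λ`) are `W2/A/<Name>.lean`: look at them. All types are
in `Type`. `(π)` is the ideal `π Λ`; `rs π x` is the residue class of `x`.
-/

namespace Pool.Agent.MP72P

open Finset

/-- **Lrb** (250 lines). Basic facts on the rings `Λ`.

Proof. `Λ` is finite. For `i < n` the map `ℤ → π ^ i Λ / π ^ (i + 1) Λ`, `c ↦ c π ^ i`, is surjective (`res`)
and kills `p` (`pdv`), so this quotient has at most `p` elements; the product of the orders of these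
quotients is `#Λ = p ^ n` (`nil`), so all of them have exactly `p` elements. (It may be convenient to
prove: the map `(Fin n → Fin p) → Λ`, `c ↦ ∑ c i π ^ i`, is surjective (induction: `res`, `pdv`), hence
bijective as both sides have `p ^ n` elements.) (1) `phi` times `π = 1 - (1 - π)`. (2) from (1), `ZMod.val_add`.
(3) `x = c + π y`; if `p ∣ c` then `x ∈ (π)`; otherwise `c c' = 1 + p k`, so `x c' = 1 + π z` is a unit
(`π z` is nilpotent). (4) uniqueness: if `c - c' ∈ (π)`, `c ≠ c'` in `ZMod p`, then an integer prime to `p` and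
`p` are in `(π)`, so `1 ∈ (π)` is nilpotent, `Λ = 0`, contradiction to `card`, `n ≥ 1`. (5) `rs` is defined by
(4); additive and multiplicative by uniqueness. (6) multiplication by `π ^ i` induces a surjection
`Λ / π ^ (n - i) Λ → π ^ i Λ` of groups with the same number `p ^ (n - i)` of elements. (7) take the largest
`i` with `x ∈ π ^ i Λ` and (3). (8) `(1 - π) ^ k = 1 - k π + π ^ 2 (..)`. -/
def S_Lrb : Prop :=
  ∀ (p : ℕ) [Fact p.Prime] (n : ℕ) (Λ : Type) [CommRing Λ] (π : Λ), LR p n π →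
    Finite Λ ∧ (1 - π) ^ p = 1 ∧
    (zt π (0 : ZMod p) = 1 ∧ ∀ a b : ZMod p, zt π (a + b) = zt π a * zt π b) ∧
    (∀ x : Λ, (∃ y, x = π * y) ∨ IsUnit x) ∧
    (1 ≤ n → ∀ x : Λ, ∃! c : ZMod p, ∃ y, x = ((c.val : ℕ) : Λ) + π * y) ∧
    (1 ≤ n → (∀ x y : Λ, rs (p := p) π (x + y) = rs π x + rs π y) ∧
      (∀ x y : Λ, rs (p := p) π (x * y) = rs π x * rs π y) ∧
      (∀ x : Λ, ∃ y, x = (((rs π x : ZMod p).val : ℕ) : Λ) + π * y) ∧
      (∀ x : Λ, rs (p := p) π x = 0 ↔ ∃ y, x = π * y) ∧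
      (∀ k : ℕ, rs π (k : Λ) = (k : ZMod p)) ∧
      ∀ x : Λ, rs (p := p) π x ≠ 0 ↔ IsUnit x) ∧
    (∀ i, i ≤ n → ∀ x : Λ, π ^ i * x = 0 ↔ ∃ y, x = π ^ (n - i) * y) ∧
    (∀ x : Λ, x ≠ 0 → ∃ i < n, ∃ u : Λ, IsUnit u ∧ x = π ^ i * u) ∧
    (∀ c : ZMod p, ∃ y, 1 - zt π c = ((c.val : ℕ) : Λ) * π + π ^ 2 * y) ∧
    ∀ a b : ℕ, (a : ZMod p) = b → ∃ y, (a : Λ) - b = π * y

/-- **Lrq** (100 lines, uses `S_Lrb`). Quotients.

Proof. `Λ' = Λ ⧸ (π ^ j)`, `f` the quotient map. `card`: the kernel `π ^ j Λ` has `p ^ (n - j)` elements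
(`S_Lrb`: it is the image of `Λ` under multiplication by `π ^ j`, with kernel `π ^ (n - j) Λ`, for all
`j ≤ n`: the numbers `a_j = #π ^ j Λ` satisfy `a_j a_(n - j) = p ^ n`, and `#(π ^ j Λ) / #(π ^ (j + 1) Λ) ≤ p`). The
other properties of `LR` are inherited. -/
def S_Lrq : Prop :=
  ∀ (p : ℕ) [Fact p.Prime] (n : ℕ) (Λ : Type) [CommRing Λ] (π : Λ), LR p n π → ∀ j ≤ n,
    ∃ (Λ' : Type) (_ : CommRing Λ') (f : Λ →+* Λ'), LR p j (f π) ∧ Function.Surjective f ∧
      ∀ x, f x = 0 ↔ ∃ y, x = π ^ j * y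

/-- **Lrx** (120 lines, uses `S_Lrb`). Additive characters.

Proof. Existence: `Λ` is a finite abelian group, `π ^ (n - 1) ≠ 0` (`S_Lrb` (6) with `i = n - 1`, `x = 1`:
otherwise `1 ∈ (π)`), so there is a character `e` with `e (π ^ (n - 1)) ≠ 1` (duality of finite abelian groups,
`AddChar.exists_ne_one`/`AddChar.doubleDual..`). (2) Let `y = π ^ i u ≠ 0` with a unit `u`, `i < n` (`S_Lrb`);
take `x = u⁻¹ π ^ (n - 1 - i)`. (3) finite group: values are roots of unity. (4) for `i + 1 ≤ n`, `f` with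
kernel `π ^ (n - i) Λ`: `x ↦ e (π ^ i x)` is trivial on the kernel, so it factors. -/
def S_Lrx : Prop :=
  ∀ (p : ℕ) [Fact p.Prime] (n : ℕ) (Λ : Type) [CommRing Λ] (π : Λ), LR p n π → 1 ≤ n →
    (∃ e : AddChar Λ ℂ, e (π ^ (n - 1)) ≠ 1) ∧
    ∀ e : AddChar Λ ℂ, e (π ^ (n - 1)) ≠ 1 →
      (∀ y : Λ, y ≠ 0 → ∃ x, e (x * y) ≠ 1) ∧ (∀ x, ‖e x‖ = 1) ∧
      (∀ c : Λ, IsUnit c → e (π ^ (n - 1) * c) ≠ 1) ∧
      ∀ i, i + 1 ≤ n → ∀ (Λ' : Type) [CommRing Λ'] (f : Λ →+* Λ'), Function.Surjective f →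
        (∀ x, f x = 0 ↔ ∃ y, x = π ^ (n - i) * y) →
        ∃ e' : AddChar Λ' ℂ, (∀ x, e' (f x) = e (π ^ i * x)) ∧ e' (f π ^ (n - i - 1)) ≠ 1

/-- **Fix** (100 lines). A finite `p`-group `M ≠ 0` with an action of the type `ActP` has an element of
order `p` on which `G` acts by `ω`.

Proof. Let `M_p = {m | p m = 0}`, not `0` and stable under the `ρ g` (`ρ g` is additive). On `M_p` the
integer multiples depend only on the class modulo `p`, so `M_p` is a vector space over `ZMod p`. Let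
`ρ' g x = ((ω g)⁻¹).val • ρ g x`: this is an action of `G` on `M_p` by additive bijections (`ω` is
multiplicative). By `ActP.uni` `ρ' (g ^ p ^ k) x = x` for `x ∈ M_p` and suitable `k`
(`(ω (g ^ p ^ k))⁻¹ * (ω g) ^ p ^ k = 1`). So the image of `G` in the permutations of `M_p` is a finite `p`-group, the
number of its fixed points is congruent to `#M_p ≡ 0` modulo `p` (`IsPGroup.card_modEq_card_fixedPoints`),
and `0` is a fixed point; so there is a fixed point `m₁ ≠ 0`, and `ρ g m₁ = (ω g).val • m₁`. -/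
def S_Fix : Prop :=
  ∀ (p : ℕ) [Fact p.Prime] (G : Type) [Group G] [TopologicalSpace G] (M : Type) [AddCommGroup M]
    [Finite M] (ω : G → ZMod p) (ρ : G → M → M), ChO p ω → ActP p ω ρ →
    ∀ r : ℕ, Nat.card M = p ^ r → Nontrivial M →
      ∃ m₁ : M, m₁ ≠ 0 ∧ p • m₁ = 0 ∧ ∀ g, ρ g m₁ = (ω g).val • m₁

/-- **Uni** (300 lines, uses `S_Fix`; the main lemma of existence and uniqueness). The same statement
as `UE` for crossed homomorphisms with values in any finite `p`-group with an action of the type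
`ActP`.

Proof by strong induction on `Nat.card M` (for all `M`, `ρ`), see `W2/A/Uni.lean`. If `M` is trivial
everything is `0`. Otherwise let `m₁` be as in `S_Fix`, `N = {c.val • m₁ | c ∈ ZMod p}` (an additive subgroup of
order `p`, `G` acts on it by `ω`); `ρ` induces an action of the type `ActP` on `M ⧸ N`.
Uniqueness: the difference `Y` of two solutions is a crossed homomorphism which is `0` on the `W w` and
at the `e j`; modulo `N` it is `0` by induction; so `Y g = (H g).val • m₁`, `H` is a crossed homomorphism to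
`ZMod p` for `ω`, `0` on the `W w` and at the `e j`, so `H = 0` by uniqueness in `UE`.
Existence: let `Z''` be the solution in `M ⧸ N`, `s` a section of `M → M ⧸ N` and `Z' = s ∘ Z''`. Then
`Z' g + ρ g (Z' h) - Z' (g h) = (c g h).val • m₁` with `c` locally constant and
`ω a * c b d - c (a b) d + c a (b d) - c a b = 0`. By `H2Z` `c g h = b g + ω g * b h - b (g h)`; `Z₁ g = Z' g - (b g).val • m₁`
is a crossed homomorphism. On `W w` the function `Z₁ - Zw w` has values in `N`, it is `(h w).val • m₁` with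
a crossed homomorphism `h w` for `ω`; also `Z₁ (e j) - m j = (c j).val • m₁`. Let `H` be as in `UE`; the
function `Z₁ - H.val • m₁` is the solution. -/
def S_Uni : Prop :=
  ∀ (p : ℕ) [Fact p.Prime] (G : Type) [Group G] [TopologicalSpace G] [IsTopologicalGroup G]
    (S J : Type) (ω : G → ZMod p) (W : S → Subgroup G) (e : J → G), ChO p ω → UE p ω W e →
    H2Z p ω → ∀ (M : Type) [AddCommGroup M] [Finite M] (r : ℕ), Nat.card M = p ^ r →
      ∀ ρ : G → M → M, ActP p ω ρ → ∀ Zw : ∀ w, W w → M, (∀ w, Coc (fun g : W w => ρ g) (Zw w)) →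
        ∀ m : J → M, ∃! Z : G → M, Coc ρ Z ∧ (∀ w (g : W w), Z g = Zw w g) ∧ ∀ j, Z (e j) = m j

/-- **Act** (150 lines, uses `S_Lrb`). The actions which are used are of the type `ActP`.

Proof. By `Chr.red` `ψ g = c + π y` with `c = (ω g).val`. By induction on `k`
`(c + π y) ^ p ^ k = c ^ p ^ k + π ^ (k + 1) y_k` (`p`-th powers: `(a + π ^ j y) ^ p = a ^ p + p (..) π ^ j + π ^ (p j) y ^ p`,
`p ∈ (π)`, `p j ≥ j + 1`); so `ψ g ^ p ^ k = c ^ p ^ k` for `k ≥ n`. (1) follows (`ψ (g ^ m) = ψ g ^ m`). (2): `δ` is a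
homomorphism to the group `V → ` functions; `δ (g ^ p ^ k) = p ^ k δ(g) = 0` for `k ≥ 1`; `loc`: `ψ` and the `δ i`
are locally constant. (3): the same with `ZMod p` in the place of `Λ`, `(ω g) ^ p ^ k = ω g` in `ZMod p`. -/
def S_Act : Prop :=
  ∀ (p : ℕ) [Fact p.Prime] (n : ℕ) (Λ : Type) [CommRing Λ] (π : Λ), LR p n π →
    ∀ (G : Type) [Group G] [TopologicalSpace G] [IsTopologicalGroup G] (ω : G → ZMod p),
    ChO p ω → ∀ ψ : G → Λ, Chr π ω ψ →
      ActP p ω (fun g (x : Λ) => ψ g * x) ∧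
      ∀ (m : ℕ) (δ : Fin m → G → ZMod p), (∀ i, HomP p (δ i)) →
        ActP p ω (fun g (f : (Fin m → ZMod p) → Λ) τ => ψ g * f (fun i => τ i - δ i g)) ∧
        ActP p ω (fun g (f : (Fin m → ZMod p) → ZMod p) τ => ω g * f (fun i => τ i - δ i g)) ∧
        Chr π ω (tw π ψ fun g => ∑ i, δ i g)

/-- **Vdc** (150 lines). Iterated van der Corput inequality with directions from subgroups, for an
additive character of a finite group.

Proof. See `W2/A/Vdc.lean` (there the character is `ZMod.stdAddChar`; the proof is the same, with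
`sb` for the signs: `∑ ω, (∏ j, sb (ω j)) • f (D + ∑ j, if ω j then δ j else 0)`). One direction:
`‖E_D Φ D‖ ^ 2 ≤ E_δ ‖E_D Φ D * conj (Φ (D + δ))‖` for `Φ D = e (f D)`, `|Φ| = 1`; iterate with the last
direction first and use convexity. -/
def S_Vdc : Prop :=
  ∀ (X : Type) [AddCommGroup X] (𝒟 : AddSubgroup X) [Fintype 𝒟] (m : ℕ)
    (H : Fin (m + 1) → AddSubgroup X) [∀ j, Fintype (H j)], (∀ j, H j ≤ 𝒟) →
    ∀ (Λ : Type) [AddCommGroup Λ] [Finite Λ] (e : AddChar Λ ℂ) (f : X → Λ),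
      (‖∑ D : 𝒟, e (f D)‖ / Fintype.card 𝒟) ^ 2 ^ (m + 1) ≤
        (∑ δ : (∀ j : Fin m, H j.succ),
          ‖∑ δ₀ : H 0, ∑ D : 𝒟, e (∑ ω : Fin (m + 1) → Bool,
            (∏ j, sb (ω j)) • f ((D : X) + ∑ j, if ω j then
              (Fin.cons (δ₀ : X) (fun j => (δ j : X)) : Fin (m + 1) → X) j else 0))‖ /
            (Fintype.card (H 0) * Fintype.card 𝒟)) / (∏ j : Fin m, Fintype.card (H j.succ))

/-- **Dual** (150 lines). The number of the homomorphisms which vanish on the image of an additive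
map.

Proof. `θ ∘ T = 0` iff `θ` factors through `C / T(B)`, a finite abelian group killed by `N`, so the number
is `#Hom(C / T(B), ZMod N) = #(C / T(B))` (duality for finite abelian groups: characters of a group
killed by `N` have values in the `N`-th roots of unity; Mathlib: `AddChar`, `card_addChar`,
`AddChar.zmodChar..`; or by the structure theorem) `= #C / #T(B) = #C * #ker T / #B = #ker T`. -/
def S_Dual : Prop :=
  ∀ (N : ℕ) [NeZero N] (B C : Type) [AddCommGroup B] [AddCommGroup C] [Finite B] [Finite C]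
    (T : B →+ C), Nat.card B = Nat.card C → (∀ c : C, N • c = 0) →
    {θ : C →+ ZMod N | ∀ b, θ (T b) = 0}.Finite ∧
      {θ : C →+ ZMod N | ∀ b, θ (T b) = 0}.ncard = {b : B | T b = 0}.ncard

/-- **Lfn** (250 lines). The ring `Λ = (ZMod (p ^ k))[X] / (1 + X + .. + X ^ (p - 1))` and the functions on
`ZMod p`.

Proof. Let `R = ZMod (p ^ k)`, `Φ = ∑_{i < p} X ^ i ∈ R[X]`, monic of degree `p - 1`, `Λ = R[X] ⧸ (Φ)` (`AdjoinRoot Φ`),
`ζ` the class of `X`, `π = 1 - ζ`. `Λ` is free over `R` with the basis `1, ζ, .., ζ ^ (p - 2)` (`AdjoinRoot.powerBasis'`), so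
`#Λ = p ^ (k (p - 1))`. `phi`: `∑ ζ ^ i = 0`. `pdv`: `Φ(X) = Φ(1) + (X - 1) (..)`, `Φ(1) = p`, so `p = π (..)`. `res`: every
element is a polynomial in `ζ = 1 - π`, so an integer plus `π (..)`. `nil`: modulo `p` the polynomial `Φ` is
`(X - 1) ^ (p - 1)` (`(X - 1) Φ = X ^ p - 1 = (X - 1) ^ p` in characteristic `p`, cancel `X - 1`), so
`π ^ (p - 1) ∈ p Λ` and `π ^ (k (p - 1)) ∈ p ^ k Λ = 0`. `φ z = ∑ i, z i ζ ^ i.val`; `ζ ^ p = 1`. Surjective: clear.
Kernel: `φ z = 0` iff the polynomial `∑ z i X ^ i.val` of degree at most `p - 1` is a multiple of the monic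
`Φ` of degree `p - 1`, i.e. `c Φ`, i.e. `z` is constant. The shift: `ζ * φ z = φ (z (· - 1))`. -/
def S_Lfn : Prop :=
  ∀ (p : ℕ) [Fact p.Prime] (k : ℕ), ∃ (Λ : Type) (_ : CommRing Λ) (π : Λ)
    (φ : (ZMod p → ZMod (p ^ k)) → Λ), LR p (k * (p - 1)) π ∧ ((p ^ k : ℕ) : Λ) = 0 ∧
      Function.Surjective φ ∧ (∀ z z', φ (z + z') = φ z + φ z') ∧
      (∀ z, φ z = 0 ↔ ∃ c, ∀ i, z i = c) ∧
      (∀ z (c : ZMod p), φ (fun i => z (i - c)) = zt π c * φ z) ∧
      (∀ z (m : ℕ), φ (fun i => m * z i) = m * φ z) ∧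
      φ (fun i => if i = 0 then 1 else 0) = 1

end Pool.Agent.MP72P
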