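import Pool.Agent.Lib.MP_72e2e6_nt.P3.A.Spec

/-!
# MP_72e2e6_nt, theorem T3p, part A: iterated van der Corput inequality
-/

namespace Pool.Agent.MP72P

open Finset

section one

variable {A B : Type} [AddCommGroup A] [AddCommGroup B] [Fintype A] [Fintype B]

omit [Fintype B] in
private theorem vdcShift (i : B →+ A) (Φ : A → ℂ) (b b' : B) :
    ∑ a, Φ (a + i b) * (starRingEnd ℂ) (Φ (a + i b')) =
      ∑ a, Φ a * (starRingEnd ℂ) (Φ (a + i (b' - b))) := by
  rw [← Equiv.sum_comp (Equiv.addRight (i b))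
    fun a => Φ a * (starRingEnd ℂ) (Φ (a + i (b' - b)))]
  refine Finset.sum_congr rfl fun a _ => ?_
  rw [Equiv.coe_addRight, add_assoc a (i b), ← map_add, add_sub_cancel]

private theorem vdcOne (i : B →+ A) (Φ : A → ℂ) :
    (Fintype.card B : ℝ) * ‖∑ a, Φ a‖ ^ 2 ≤
      Fintype.card A * ‖∑ b, ∑ a, Φ a * (starRingEnd ℂ) (Φ (a + i b))‖ := by
  set T : B → ℂ := fun b => ∑ a, Φ a * (starRingEnd ℂ) (Φ (a + i b)) with hT
  have e1 : ∑ a, ∑ b, Φ (a + i b) = Fintype.card B * ∑ a, Φ a := by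
    rw [Finset.sum_comm]
    have : ∀ b, ∑ a, Φ (a + i b) = ∑ a, Φ a := fun b =>
      Equiv.sum_comp (Equiv.addRight (i b)) Φ
    simp only [this, Finset.sum_const, Finset.card_univ, nsmul_eq_mul]
  have e2 : ((∑ a, ‖∑ b, Φ (a + i b)‖ ^ 2 : ℝ) : ℂ) = Fintype.card B * ∑ b, T b := by
    push_cast
    have : ∀ a, ((‖∑ b, Φ (a + i b)‖ : ℂ)) ^ 2 =
        ∑ b, ∑ b', Φ (a + i b) * (starRingEnd ℂ) (Φ (a + i b')) := by
      intro a
      rw [← Complex.mul_conj', map_sum, Finset.sum_mul_sum]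
    simp only [this]
    rw [Finset.sum_comm]
    have e3 : ∀ b, ∑ a, ∑ b', Φ (a + i b) * (starRingEnd ℂ) (Φ (a + i b')) = ∑ b, T b := by
      intro b
      rw [Finset.sum_comm]
      simp only [vdcShift]
      exact Equiv.sum_comp (Equiv.subRight b) T
    simp only [e3, Finset.sum_const, Finset.card_univ, nsmul_eq_mul]
  have e4 : (∑ a, ‖∑ b, Φ (a + i b)‖ ^ 2 : ℝ) = Fintype.card B * ‖∑ b, T b‖ := by
    have h := congrArg norm e2
    rw [norm_mul, Complex.norm_natCast, Complex.norm_real, Real.norm_of_nonneg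
      (Finset.sum_nonneg fun _ _ => sq_nonneg _)] at h
    exact h
  have e5 : ((Fintype.card B : ℝ) * ‖∑ a, Φ a‖) ^ 2 ≤
      Fintype.card A * (Fintype.card B * ‖∑ b, T b‖) := by
    rw [← e4]
    have h1 : (Fintype.card B : ℝ) * ‖∑ a, Φ a‖ ≤ ∑ a, ‖∑ b, Φ (a + i b)‖ := by
      have h2 := congrArg norm e1
      rw [norm_mul, Complex.norm_natCast] at h2
      rw [← h2]
      exact norm_sum_le _ _
    refine (pow_le_pow_left₀ (by positivity) h1 2).trans ?_
    have := sq_sum_le_card_mul_sum_sq (s := (Finset.univ : Finset A))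
      (f := fun a => ‖∑ b, Φ (a + i b)‖)
    rwa [Finset.card_univ] at this
  have hB : (0 : ℝ) < Fintype.card B := by
    have := Fintype.card_pos (α := B)
    exact_mod_cast this
  have e6 : (Fintype.card B : ℝ) * (Fintype.card B * ‖∑ a, Φ a‖ ^ 2) ≤
      Fintype.card B * (Fintype.card A * ‖∑ b, T b‖) := by
    calc _ = ((Fintype.card B : ℝ) * ‖∑ a, Φ a‖) ^ 2 := by ring
      _ ≤ _ := e5
      _ = _ := by ring
  exact le_of_mul_le_mul_left e6 hB

private theorem vdcOne' {Λ : Type} [AddCommGroup Λ] [Finite Λ] (ε : AddChar Λ ℂ) (i : B →+ A)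
    (f : A → Λ) :
    (‖∑ a, ε (f a)‖ / Fintype.card A) ^ 2 ≤
      ‖∑ b, ∑ a, ε (f a - f (a + i b))‖ / (Fintype.card B * Fintype.card A) := by
  have h := vdcOne i fun a => (ε (f a) : ℂ)
  have e : ∀ a b, (ε (f a) : ℂ) * (starRingEnd ℂ) (ε (f (a + i b))) =
      ε (f a - f (a + i b)) := by
    intro a b
    rw [← AddChar.map_neg_eq_conj, ← AddChar.map_add_eq_mul, sub_eq_add_neg]
  simp only [e] at h
  have hA : (0 : ℝ) < Fintype.card A := by
    have := Fintype.card_pos (α := A)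
    exact_mod_cast this
  have hB : (0 : ℝ) < Fintype.card B := by
    have := Fintype.card_pos (α := B)
    exact_mod_cast this
  rw [div_pow, div_le_div_iff₀ (by positivity) (by positivity)]
  nlinarith [mul_le_mul_of_nonneg_left h hA.le]

end one

/-- The iterated difference. -/
private def vdcCub {X R : Type} [AddCommGroup X] [AddCommGroup R] :
    (k : ℕ) → (X → R) → (Fin k → X) → X → R
  | 0, f, _, D => f D
  | k + 1, f, δ, D => vdcCub k f (Fin.tail δ) D - vdcCub k f (Fin.tail δ) (D + δ 0)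

private theorem vdcCub_comm {X R : Type} [AddCommGroup X] [AddCommGroup R] (k : ℕ) (f : X → R)
    (δ : Fin (k + 1) → X) (D : X) :
    vdcCub (k + 1) f δ D = vdcCub k (fun x => f x - f (x + δ 0)) (Fin.tail δ) D := by
  have key : ∀ (k : ℕ) (δ : Fin k → X) (y D : X),
      vdcCub k (fun x => f x - f (x + y)) δ D = vdcCub k f δ D - vdcCub k f δ (D + y) := by
    intro k
    induction k with
    | zero => intro δ y D; rfl
    | succ k ih =>
      intro δ y D
      simp only [vdcCub, ih]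
      rw [add_right_comm D y (δ 0)]
      abel
  rw [key]
  rfl

private theorem vdcStep {X R : Type} [AddCommGroup X] [AddCommGroup R] {m : ℕ} (f : X → R)
    (δ₀ δ : X) (δ' : Fin m → X) (D : X) :
    vdcCub (m + 1 + 1) f (Fin.cons δ₀ (Fin.cons δ δ' : Fin (m + 1) → X)) D =
      vdcCub (m + 1) (fun x => f x - f (x + δ)) (Fin.cons δ₀ δ') D := by
  have h1 : ∀ D, vdcCub (m + 1) f (Fin.cons δ δ' : Fin (m + 1) → X) D =
      vdcCub m (fun x => f x - f (x + δ)) δ' D := fun D => vdcCub_comm m f (Fin.cons δ δ') D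
  have h2 : vdcCub (m + 1 + 1) f (Fin.cons δ₀ (Fin.cons δ δ' : Fin (m + 1) → X)) D =
      vdcCub (m + 1) f (Fin.cons δ δ' : Fin (m + 1) → X) D -
      vdcCub (m + 1) f (Fin.cons δ δ' : Fin (m + 1) → X) (D + δ₀) := rfl
  rw [h2, h1, h1]
  rfl

private theorem vdcSum {X Λ : Type} [AddCommGroup X] [AddCommGroup Λ] (k : ℕ) (f : X → Λ)
    (δ : Fin k → X) (D : X) :
    vdcCub k f δ D = ∑ ω : Fin k → Bool, (∏ j, sb (ω j)) •
      f (D + ∑ j, if ω j then δ j else 0) := by
  induction k generalizing D with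
  | zero =>
    rw [Fintype.sum_unique]
    simp [vdcCub]
  | succ k ih =>
    rw [← Equiv.sum_comp (Fin.consEquiv fun _ => Bool), Fintype.sum_prod_type]
    have h2 : ∀ F : Bool → Λ, ∑ c, F c = F false + F true := fun F => by
      rw [Fintype.sum_bool, add_comm]
    rw [h2, vdcCub, ih, ih, sub_eq_add_neg, ← Finset.sum_neg_distrib]
    congr 1
    · refine Finset.sum_congr rfl fun ω _ => ?_
      simp only [Fin.consEquiv_apply, Fin.prod_univ_succ, Fin.sum_univ_succ, Fin.cons_zero,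
        Fin.cons_succ, Fin.tail, Bool.false_eq_true, if_false, zero_add]
      rw [show sb false = 1 from rfl, one_mul]
    · refine Finset.sum_congr rfl fun ω _ => ?_
      simp only [Fin.consEquiv_apply, Fin.prod_univ_succ, Fin.sum_univ_succ, Fin.cons_zero,
        Fin.cons_succ, Fin.tail, if_true]
      rw [show sb true = -1 from rfl, neg_one_mul, neg_smul, add_assoc]

private theorem vdcMain {X : Type} [AddCommGroup X] (𝒟 : AddSubgroup X) [Fintype 𝒟]
    (H0 : AddSubgroup X) [Fintype H0] (h0 : H0 ≤ 𝒟) {Λ : Type} [AddCommGroup Λ] [Finite Λ]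
    (ε : AddChar Λ ℂ) (m : ℕ) :
    ∀ (H : Fin m → AddSubgroup X) [∀ j, Fintype (H j)], (∀ j, H j ≤ 𝒟) →
    ∀ (f : X → Λ),
      (‖∑ D : 𝒟, ε (f D)‖ / Fintype.card 𝒟) ^ 2 ^ (m + 1) ≤
        (∑ δ : (∀ j : Fin m, H j),
          ‖∑ δ₀ : H0, ∑ D : 𝒟, ε (vdcCub (m + 1) f
              (Fin.cons (δ₀ : X) (fun j => (δ j : X)) : Fin (m + 1) → X) D)‖ /
            (Fintype.card H0 * Fintype.card 𝒟)) / (∏ j : Fin m, Fintype.card (H j)) := by
  have hD : (0 : ℝ) < Fintype.card 𝒟 := by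
    have := Fintype.card_pos (α := 𝒟)
    exact_mod_cast this
  induction m with
  | zero =>
    intro H _ hH f
    have h := vdcOne' ε (AddSubgroup.inclusion h0) fun D : 𝒟 => f D
    refine h.trans (le_of_eq ?_)
    rw [Fintype.prod_empty, Nat.cast_one, div_one, Fintype.sum_unique (ι := ∀ j : Fin 0, H j)]
    rfl
  | succ m ih =>
    intro H _ hH f
    have h1 := vdcOne' ε (AddSubgroup.inclusion (hH 0)) fun D : 𝒟 => f D
    have hH0 : (0 : ℝ) < Fintype.card (H 0) := by
      have := Fintype.card_pos (α := H 0)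
      exact_mod_cast this
    set x : H 0 → ℝ := fun δ => ‖∑ D : 𝒟, ε (f D - f (D + δ))‖ / Fintype.card 𝒟
      with hx
    have hx0 : ∀ δ, 0 ≤ x δ := fun δ => by positivity
    have h2 : (‖∑ D : 𝒟, ε (f D)‖ / Fintype.card 𝒟) ^ 2 ≤
        ∑ δ, (1 / Fintype.card (H 0) : ℝ) * x δ := by
      refine h1.trans ?_
      rw [← Finset.mul_sum, hx, ← Finset.sum_div, one_div_mul_eq_div, div_div,
        mul_comm (Fintype.card 𝒟 : ℝ)]
      apply div_le_div_of_nonneg_right _ (by positivity)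
      exact norm_sum_le _ _
    have h3 : (‖∑ D : 𝒟, ε (f D)‖ / Fintype.card 𝒟) ^ 2 ^ (m + 1 + 1) ≤
        ∑ δ, (1 / Fintype.card (H 0) : ℝ) * x δ ^ 2 ^ (m + 1) := by
      rw [pow_succ' 2 (m + 1), pow_mul]
      refine (pow_le_pow_left₀ (by positivity) h2 _).trans ?_
      apply Real.pow_arith_mean_le_arith_mean_pow
      · intro i _
        positivity
      · rw [Finset.sum_const, Finset.card_univ, nsmul_eq_mul]
        field_simp
      · intro i _
        exact hx0 i
    refine h3.trans ?_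
    have h4 := fun δ : H 0 => ih (fun j => H j.succ) (fun j => hH j.succ)
      (fun D => f D - f (D + δ))
    rw [Fin.prod_univ_succ, ← Equiv.sum_comp (Fin.consEquiv fun j => H j),
      Fintype.sum_prod_type]
    rw [← Finset.mul_sum, one_div_mul_eq_div, Nat.cast_mul, div_mul_eq_div_div_swap]
    apply div_le_div_of_nonneg_right _ hH0.le
    rw [Finset.sum_div]
    refine Finset.sum_le_sum fun δ _ => ?_
    refine (h4 δ).trans (le_of_eq ?_)
    congr 1
    refine Finset.sum_congr rfl fun δ' _ => ?_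
    have e : (fun j => ((Fin.consEquiv (fun j => H j) (δ, δ') : ∀ j, H j) j : X)) =
        Fin.cons (δ : X) (fun j => (δ' j : X)) := by
      funext j
      refine Fin.cases rfl (fun j => rfl) j
    simp only [e, vdcStep]

theorem tVdc : S_Vdc := by
  intro X _ 𝒟 _ m H _ hH Λ _ _ e f
  have h := vdcMain 𝒟 (H 0) (hH 0) e m (fun j => H j.succ) (fun j => hH j.succ) f
  simp only [vdcSum] at h
  exact h

end Pool.Agent.MP72P
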